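import Mathlib

/-!
Global existence for an autonomous `C¹` equation from a priori bounds.
-/

set_option autoImplicit false
noncomputable section
namespace Pool.Agent.Helper29.N2

open Set Filter Topology Metric

variable {E : Type*} [NormedAddCommGroup E] [NormedSpace ℝ E]

/-- solution on an open interval -/
def SolOn (F : E → E) (γ : ℝ → E) (a b : ℝ) : Prop := ∀ t ∈ Ioo a b, HasDerivAt γ (F (γ t)) t

theorem SolOn.mono {F : E → E} {γ : ℝ → E} {a b a' b' : ℝ} (h : SolOn F γ a b) (ha : a ≤ a')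
    (hb : b' ≤ b) : SolOn F γ a' b' := fun t ht => h t ⟨ha.trans_lt ht.1, ht.2.trans_le hb⟩

theorem SolOn.congr {F : E → E} {γ α : ℝ → E} {a b : ℝ} (h : SolOn F γ a b)
    (he : ∀ t ∈ Ioo a b, α t = γ t) : SolOn F α a b := by
  intro t ht
  have h1 : α =ᶠ[𝓝 t] γ := by
    filter_upwards [isOpen_Ioo.mem_nhds ht] with x hx using he x hx
  rw [he t ht]
  exact (h t ht).congr_of_eventuallyEq h1

theorem SolOn.shift {F : E → E} {γ : ℝ → E} {a b : ℝ} (h : SolOn F γ a b) (c : ℝ) :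
    SolOn F (fun t => γ (t - c)) (a + c) (b + c) := by
  intro t ht
  have := h (t - c) ⟨by linarith [ht.1], by linarith [ht.2]⟩
  exact this.comp_sub_const t c

theorem SolOn.eventuallyEq {F : E → E} (hF : ContDiff ℝ 1 F) {γ α : ℝ → E} {a b c d t : ℝ}
    (h1 : SolOn F γ a b) (h2 : SolOn F α c d) (ht : t ∈ Ioo a b) (ht' : t ∈ Ioo c d)
    (h : γ t = α t) : γ =ᶠ[𝓝 t] α := by
  obtain ⟨K, s, hs, hl⟩ := (hF.contDiffAt (x := γ t)).exists_lipschitzOnWith
  refine ODE_solution_unique_of_eventually (v := fun _ => F) (s := fun _ => s) (K := K)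
    (Eventually.of_forall fun _ => hl) ?_ ?_ h
  · have e2 : ∀ᶠ x in 𝓝 t, γ x ∈ s := (h1 t ht).continuousAt hs
    filter_upwards [isOpen_Ioo.mem_nhds ht, e2] with x hx hx2 using ⟨h1 x hx, hx2⟩
  · rw [h] at hs
    have e2 : ∀ᶠ x in 𝓝 t, α x ∈ s := (h2 t ht').continuousAt hs
    filter_upwards [isOpen_Ioo.mem_nhds ht', e2] with x hx hx2 using ⟨h2 x hx, hx2⟩

theorem SolOn.eqOn {F : E → E} (hF : ContDiff ℝ 1 F) {γ α : ℝ → E} {a b t0 : ℝ}
    (h1 : SolOn F γ a b) (h2 : SolOn F α a b) (ht : t0 ∈ Ioo a b) (h : γ t0 = α t0) :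
    ∀ t ∈ Ioo a b, γ t = α t := by
  set A : Set ℝ := {t | t ∈ Ioo a b ∧ γ t = α t} with hA
  have hAo : IsOpen A := by
    rw [isOpen_iff_mem_nhds]
    rintro t ⟨ht1, ht2⟩
    filter_upwards [isOpen_Ioo.mem_nhds ht1, h1.eventuallyEq hF h2 ht1 ht1 ht2] with x hx hx2
      using ⟨hx, hx2⟩
  have hsub : Ioo a b ⊆ A := by
    refine isPreconnected_Ioo.subset_of_closure_inter_subset hAo ⟨t0, ht, ht, h⟩ ?_
    rintro t ⟨ht1, ht2⟩
    refine ⟨ht2, ?_⟩
    refine tendsto_nhds_unique_of_frequently_eq (h1 t ht2).continuousAt (h2 t ht2).continuousAt ?_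
    exact (mem_closure_iff_frequently.1 ht1).mono fun x hx => hx.2
  exact fun t ht => (hsub ht).2

theorem SolOn.glue {F : E → E} (hF : ContDiff ℝ 1 F) {γ α : ℝ → E} {a b c d t1 : ℝ}
    (h1 : SolOn F γ a b) (h2 : SolOn F α c d) (ht : t1 ∈ Ioo a b) (ht' : t1 ∈ Ioo c d)
    (h : γ t1 = α t1) : SolOn F (fun t => if t < t1 then γ t else α t) a d := by
  intro t htt
  rcases lt_trichotomy t t1 with hlt | heq | hgt
  · have e : (fun t => if t < t1 then γ t else α t) =ᶠ[𝓝 t] γ := by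
      filter_upwards [isOpen_Iio.mem_nhds hlt] with x hx
      exact if_pos hx
    have e1 : (if t < t1 then γ t else α t) = γ t := if_pos hlt
    show HasDerivAt _ (F (if t < t1 then γ t else α t)) t
    rw [e1]
    exact (h1 t ⟨htt.1, hlt.trans ht.2⟩).congr_of_eventuallyEq e
  · subst heq
    have e : (fun x => if x < t then γ x else α x) =ᶠ[𝓝 t] α := by
      filter_upwards [h1.eventuallyEq hF h2 ht ht' h] with x hx
      split_ifs
      · exact hx
      · rfl
    have e1 : (if t < t then γ t else α t) = α t := if_neg (lt_irrefl t)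
    show HasDerivAt _ (F (if t < t then γ t else α t)) t
    rw [e1]
    exact (h2 t ht').congr_of_eventuallyEq e
  · have e : (fun t => if t < t1 then γ t else α t) =ᶠ[𝓝 t] α := by
      filter_upwards [isOpen_Ioi.mem_nhds hgt] with x hx
      exact if_neg (not_lt.2 (le_of_lt hx))
    have e1 : (if t < t1 then γ t else α t) = α t := if_neg (not_lt.2 hgt.le)
    show HasDerivAt _ (F (if t < t1 then γ t else α t)) t
    rw [e1]
    exact (h2 t ⟨ht'.1.trans hgt, htt.2⟩).congr_of_eventuallyEq e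

/-- uniform local existence on compact sets -/
theorem exists_uniform [CompleteSpace E] {F : E → E} (hF : ContDiff ℝ 1 F) {s : Set E}
    (hs : IsCompact s) :
    ∃ ε > (0 : ℝ), ∀ x ∈ s, ∃ α : ℝ → E, α 0 = x ∧ SolOn F α (-ε) ε := by
  refine hs.induction_on (p := fun s => ∃ ε > (0 : ℝ), ∀ x ∈ s, ∃ α : ℝ → E, α 0 = x ∧
    SolOn F α (-ε) ε) ⟨1, one_pos, by simp⟩ ?_ ?_ ?_
  · rintro s t hst ⟨ε, hε, h⟩
    exact ⟨ε, hε, fun x hx => h x (hst hx)⟩
  · rintro s t ⟨ε, hε, h⟩ ⟨δ, hδ, h'⟩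
    refine ⟨min ε δ, lt_min hε hδ, ?_⟩
    rintro x (hx | hx)
    · obtain ⟨α, h0, hα⟩ := h x hx
      exact ⟨α, h0, hα.mono (neg_le_neg (min_le_left _ _)) (min_le_left _ _)⟩
    · obtain ⟨α, h0, hα⟩ := h' x hx
      exact ⟨α, h0, hα.mono (neg_le_neg (min_le_right _ _)) (min_le_right _ _)⟩
  · intro x _
    obtain ⟨r, hr, ε, hε, h⟩ :=
      (hF.contDiffAt (x := x)).exists_forall_mem_closedBall_exists_eq_forall_mem_Ioo_hasDerivAt 0
    refine ⟨closedBall x r, mem_nhdsWithin_of_mem_nhds (closedBall_mem_nhds x hr), ε, hε, ?_⟩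
    intro y hy
    obtain ⟨α, h0, hα⟩ := h y hy
    refine ⟨α, h0, fun t ht => hα t ?_⟩
    rw [zero_sub, zero_add]; exact ht

/-- GLOBAL EXISTENCE from a priori bounds -/
theorem exists_global [FiniteDimensional ℝ E] {F : E → E} (hF : ContDiff ℝ 1 F) (u0 : E)
    (hap : ∀ T, ∃ R, ∀ T', 0 < T' → T' ≤ T → ∀ γ : ℝ → E, γ 0 = u0 → SolOn F γ (-T') T' →
      ∀ t ∈ Ioo (-T') T', ‖γ t‖ ≤ R) :
    ∃ γ : ℝ → E, γ 0 = u0 ∧ ∀ t, HasDerivAt γ (F (γ t)) t := by
  have : CompleteSpace E := FiniteDimensional.complete ℝ E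
  have : ProperSpace E := FiniteDimensional.proper ℝ E
  have hall : ∀ T, 0 < T → ∃ γ : ℝ → E, γ 0 = u0 ∧ SolOn F γ (-T) T := by
    by_contra hcon
    push Not at hcon
    obtain ⟨T1, hT1, hno⟩ := hcon
    set S : Set ℝ := {T | 0 < T ∧ ∃ γ : ℝ → E, γ 0 = u0 ∧ SolOn F γ (-T) T} with hS
    have hbdd : BddAbove S := by
      refine ⟨T1, ?_⟩
      rintro T ⟨hT, γ, h0, hγ⟩
      by_contra hlt
      push Not at hlt
      exact hno γ h0 (hγ.mono (neg_le_neg hlt.le) hlt.le)
    obtain ⟨ε0, hε0, hloc⟩ := exists_uniform hF (isCompact_singleton (x := u0))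
    obtain ⟨α0, hα0, hα0'⟩ := hloc u0 rfl
    have hne : S.Nonempty := ⟨ε0, hε0, α0, hα0, hα0'⟩
    set Ts := sSup S with hTs
    obtain ⟨R, hR⟩ := hap Ts
    obtain ⟨ε, hε, hunif⟩ := exists_uniform hF (isCompact_closedBall (0 : E) R)
    obtain ⟨T, ⟨hT, γ, h0, hγ⟩, hTgt⟩ := exists_lt_of_lt_csSup hne
      (show Ts - ε / 4 < sSup S by linarith)
    have hTle : T ≤ Ts := le_csSup hbdd ⟨hT, γ, h0, hγ⟩
    have hb : ∀ t ∈ Ioo (-T) T, γ t ∈ closedBall (0 : E) R := by
      intro t ht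
      rw [mem_closedBall_zero_iff]
      exact hR T hT hTle γ h0 hγ t ht
    set η := min ε T / 2 with hη
    have hη0 : 0 < η := by have := lt_min hε hT; positivity
    have hηε : η ≤ ε / 2 := by have := min_le_left ε T; linarith
    have hηT : η ≤ T / 2 := by have := min_le_right ε T; linarith
    set t1 := T - η with ht1
    have ht1p : 0 < t1 := by linarith
    have ht1m : t1 ∈ Ioo (-T) T := ⟨by linarith, by linarith⟩
    have ht1m' : -t1 ∈ Ioo (-T) T := ⟨by linarith, by linarith⟩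
    obtain ⟨α, hα, hα'⟩ := hunif (γ t1) (hb t1 ht1m)
    obtain ⟨β, hβ, hβ'⟩ := hunif (γ (-t1)) (hb (-t1) ht1m')
    -- to the right
    have hαs := hα'.shift t1
    have hg1 := hγ.glue hF hαs (t1 := t1) ht1m ⟨by linarith, by linarith⟩
      (by simp [hα])
    -- to the left
    have hβs := hβ'.shift (-t1)
    have hg2 := hβs.glue hF hg1 (t1 := -t1) ⟨by linarith, by linarith⟩
      ⟨by linarith, by linarith⟩ (by
        have : -t1 < t1 := by linarith
        simp [hβ, this])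
    have hmem : t1 + ε ∈ S := by
      refine ⟨by linarith, _, ?_, hg2.mono (by linarith) (by linarith)⟩
      have h2 : ¬ (0 : ℝ) < -t1 := by linarith
      simp only [h2, if_false, ht1p, if_true, h0]
    have := le_csSup hbdd hmem
    linarith
  choose! G hG0 hG using hall
  refine ⟨fun t => G (|t| + 1) t, ?_, ?_⟩
  · exact hG0 _ (by positivity)
  · intro t
    have hT0 : 0 < |t| + 2 := by positivity
    have hloc : ∀ x, |x| < |t| + 1 → G (|x| + 1) x = G (|t| + 2) x := by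
      intro x hx
      have hx0 : 0 < |x| + 1 := by positivity
      have h1 := hG (|x| + 1) hx0
      have h2 := (hG (|t| + 2) hT0).mono (a' := -(|x| + 1)) (b' := |x| + 1) (by linarith)
        (by linarith)
      refine h1.eqOn hF h2 (t0 := 0) ⟨by linarith, hx0⟩ ?_ x ?_
      · rw [hG0 _ hx0, hG0 _ hT0]
      · exact abs_lt.1 (by linarith)
    have hev : (fun x => G (|x| + 1) x) =ᶠ[𝓝 t] G (|t| + 2) := by
      have : ∀ᶠ x in 𝓝 t, |x| < |t| + 1 :=
        continuous_abs.continuousAt.eventually_lt continuousAt_const (by linarith)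
      filter_upwards [this] with x hx using hloc x hx
    have h3 := hG (|t| + 2) hT0 t (abs_lt.1 (by linarith))
    rw [← hloc t (by linarith)] at h3
    exact h3.congr_of_eventuallyEq hev

end Pool.Agent.Helper29.N2
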