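import Mathlib

/-!
Rotational null 2-type surfaces (flat normal bundle theorem, MP_c4dbfc): the growth argument.
The radius `a` of the circles, in the conformal parameter, solves
`a'' = a - c a³ + c (m e^t + n e^(-t)) a²` on the whole line, `a > 0`, `|a'| ≤ a`.
-/

set_option autoImplicit false
noncomputable section
namespace Pool.Agent.Helper29.N2

open Real

/-! ### differential inequalities -/

theorem grow_mono {f f' : ℝ → ℝ} {t0 : ℝ} (h : ∀ t, HasDerivAt f (f' t) t)
    (hf : ∀ t, t0 ≤ t → 0 ≤ f' t) {t : ℝ} (ht : t0 ≤ t) : f t0 ≤ f t := by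
  have hm : MonotoneOn f (Set.Ici t0) := by
    refine monotoneOn_of_deriv_nonneg (convex_Ici t0)
      (fun x _ => (h x).continuousAt.continuousWithinAt)
      (fun x _ => (h x).differentiableAt.differentiableWithinAt) ?_
    intro x hx
    rw [interior_Ici] at hx
    rw [(h x).deriv]
    exact hf x (le_of_lt hx)
  exact hm Set.self_mem_Ici ht ht

theorem grow_lin {f f' : ℝ → ℝ} {t0 κ : ℝ} (h : ∀ t, HasDerivAt f (f' t) t)
    (hf : ∀ t, t0 ≤ t → κ ≤ f' t) {t : ℝ} (ht : t0 ≤ t) : f t0 + κ * (t - t0) ≤ f t := by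
  have h1 : ∀ t, HasDerivAt (fun t => f t - κ * (t - t0)) (f' t - κ * 1) t := by
    intro t
    exact (h t).sub (((hasDerivAt_id t).sub_const t0).const_mul κ)
  have := grow_mono h1 (fun t ht => by linarith [hf t ht]) ht
  simp only [sub_self, mul_zero, sub_zero] at this
  linarith

theorem grow_anti {f f' : ℝ → ℝ} {t0 : ℝ} (h : ∀ t, HasDerivAt f (f' t) t)
    (hf : ∀ t, t0 ≤ t → f' t ≤ 0) {t : ℝ} (ht : t0 ≤ t) : f t ≤ f t0 := by
  have := grow_mono (f := fun t => -f t) (f' := fun t => -f' t) (t0 := t0)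
    (fun t => (h t).neg) (fun t ht => by linarith [hf t ht]) ht
  linarith

/-- blow up -/
theorem grow_blow {g g' : ℝ → ℝ} {t0 κ : ℝ} (hκ : 0 < κ) (h : ∀ t, HasDerivAt g (g' t) t)
    (hg : ∀ t, t0 ≤ t → 0 < g t) (hg' : ∀ t, t0 ≤ t → κ * g t ^ 2 ≤ g' t) : False := by
  have h0 := hg t0 le_rfl
  set T := t0 + 1 / (κ * g t0) with hT
  have hT0 : t0 ≤ T := by
    have : 0 < 1 / (κ * g t0) := by positivity
    linarith
  have hm : AntitoneOn (fun t => (g t)⁻¹ + κ * t) (Set.Ici t0) := by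
    have hd : ∀ x, t0 ≤ x → HasDerivAt (fun t => (g t)⁻¹ + κ * t)
        (-(g' x) / g x ^ 2 + κ * 1) x := by
      intro x hx
      exact ((h x).inv (hg x hx).ne').add ((hasDerivAt_id x).const_mul κ)
    refine antitoneOn_of_deriv_nonpos (convex_Ici t0)
      (fun x hx => (hd x hx).continuousAt.continuousWithinAt)
      (fun x hx => (hd x (interior_subset hx)).differentiableAt.differentiableWithinAt) ?_
    intro x hx
    have hx' : t0 ≤ x := interior_subset hx
    rw [(hd x hx').deriv]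
    have h1 : 0 < g x ^ 2 := by have := hg x hx'; positivity
    have h2 : κ ≤ g' x / g x ^ 2 := by
      rw [le_div_iff₀ h1]; exact hg' x hx'
    rw [neg_div]; linarith
  have h1 := hm Set.self_mem_Ici hT0 hT0
  have h2 : 0 < (g T)⁻¹ := inv_pos.2 (hg T hT0)
  have h3 : κ * T = κ * t0 + (g t0)⁻¹ := by
    rw [hT]; field_simp
  simp only at h1
  linarith

/-! ### the equation -/

/-- solutions -/
structure Sol (c m n : ℝ) (a a1 : ℝ → ℝ) : Prop where
  h1 : ∀ t, HasDerivAt a (a1 t) t
  h2 : ∀ t, HasDerivAt a1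
    (a t - c * a t ^ 3 + c * (m * exp t + n * exp (-t)) * a t ^ 2) t
  pos : ∀ t, 0 < a t
  bd : ∀ t, |a1 t| ≤ a t

variable {c m n : ℝ} {a a1 : ℝ → ℝ}

/-- time reversal -/
theorem Sol.rev (S : Sol c m n a a1) : Sol c n m (fun t => a (-t)) (fun t => -a1 (-t)) where
  h1 := by
    intro t
    have := (S.h1 (-t)).comp t (hasDerivAt_neg t)
    exact this.congr_deriv (by ring)
  h2 := by
    intro t
    have := ((S.h2 (-t)).comp t (hasDerivAt_neg t)).neg
    refine HasDerivAt.congr_deriv (f := fun t => -a1 (-t)) this ?_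
    rw [neg_neg]
    ring
  pos := fun t => S.pos (-t)
  bd := fun t => by simpa [abs_neg] using S.bd (-t)

theorem hexpn (t : ℝ) : HasDerivAt (fun t => exp (-t)) (-exp (-t)) t := by
  have := (Real.hasDerivAt_exp (-t)).comp t (hasDerivAt_neg t)
  exact this.congr_deriv (by ring)

/-- the first component of the mean curvature vector -/
def gB (c m n : ℝ) (a : ℝ → ℝ) (t : ℝ) : ℝ := c * (a t - (m * exp t + n * exp (-t)))
/-- its derivative -/
def gB1 (c m n : ℝ) (a1 : ℝ → ℝ) (t : ℝ) : ℝ := c * (a1 t - (m * exp t - n * exp (-t)))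
/-- `e^t (a - a')` -/
def gg (a a1 : ℝ → ℝ) (t : ℝ) : ℝ := exp t * (a t - a1 t)

theorem Sol.dB (S : Sol c m n a a1) (t : ℝ) : HasDerivAt (gB c m n a) (gB1 c m n a1 t) t := by
  have := ((S.h1 t).sub (((Real.hasDerivAt_exp t).const_mul m).add
    ((hexpn t).const_mul n))).const_mul c
  refine this.congr_deriv ?_
  unfold gB1; ring

theorem Sol.dB1 (S : Sol c m n a a1) (t : ℝ) :
    HasDerivAt (gB1 c m n a1) ((1 - c * a t ^ 2) * gB c m n a t) t := by
  have := ((S.h2 t).sub (((Real.hasDerivAt_exp t).const_mul m).sub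
    ((hexpn t).const_mul n))).const_mul c
  refine this.congr_deriv ?_
  unfold gB; ring

theorem Sol.dg (S : Sol c m n a a1) (t : ℝ) :
    HasDerivAt (gg a a1) (exp t * a t ^ 2 * gB c m n a t) t := by
  have := (Real.hasDerivAt_exp t).mul ((S.h1 t).sub (S.h2 t))
  refine this.congr_deriv ?_
  simp only [Pi.sub_apply]
  unfold gB; ring

theorem Sol.g0 (S : Sol c m n a a1) (t : ℝ) : 0 ≤ gg a a1 t := by
  have h := abs_le.1 (S.bd t)
  exact mul_nonneg (exp_pos t).le (by linarith [h.2])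

theorem Sol.gv (S : Sol c m n a a1) (t : ℝ) : gg a a1 t ≤ 2 * (exp t * a t) := by
  have h := abs_le.1 (S.bd t)
  have := mul_le_mul_of_nonneg_left (show a t - a1 t ≤ 2 * a t by linarith [h.1]) (exp_pos t).le
  unfold gg; linarith

theorem Sol.dv (S : Sol c m n a a1) (t : ℝ) :
    HasDerivAt (fun t => exp t * a t) (exp t * (a t + a1 t)) t := by
  have := (Real.hasDerivAt_exp t).mul (S.h1 t)
  refine this.congr_deriv ?_
  ring

/-- `e^t a` is nondecreasing -/
theorem Sol.vmono (S : Sol c m n a a1) {s t : ℝ} (h : s ≤ t) : exp s * a s ≤ exp t * a t :=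
  grow_mono (f := fun t => exp t * a t) S.dv (fun x _ => by
    have h := abs_le.1 (S.bd x)
    exact mul_nonneg (exp_pos x).le (by linarith [h.1])) h

theorem Sol.dp (S : Sol c m n a a1) (t : ℝ) :
    HasDerivAt (fun t => exp (-t) * a t) (-(exp (-t) * (a t - a1 t))) t := by
  have := (hexpn t).mul (S.h1 t)
  refine this.congr_deriv ?_
  ring

/-- `e^(-t) a` is nonincreasing -/
theorem Sol.panti (S : Sol c m n a a1) {s t : ℝ} (h : s ≤ t) :
    exp (-t) * a t ≤ exp (-s) * a s :=
  grow_anti (f := fun t => exp (-t) * a t) S.dp (fun x _ => by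
    have h := abs_le.1 (S.bd x)
    have := mul_nonneg (exp_pos (-x)).le (show 0 ≤ a x - a1 x by linarith [h.2])
    linarith) h

/-- `B` cannot be positive and of order `e^t` -/
theorem Sol.no_pos (S : Sol c m n a a1) {κ T : ℝ} (hκ : 0 < κ)
    (h : ∀ t, T ≤ t → κ * exp t ≤ gB c m n a t) : False := by
  have hd : ∀ t, T ≤ t → κ * (exp t * a t) ^ 2 ≤ exp t * a t ^ 2 * gB c m n a t := by
    intro t ht
    have := mul_le_mul_of_nonneg_left (h t ht)
      (mul_nonneg (exp_pos t).le (sq_nonneg (a t)))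
    nlinarith
  -- `g` is positive after time `T + 1`
  have hg : ∀ t, T + 1 ≤ t → 0 < gg a a1 t := by
    intro t ht
    have hv : 0 < κ * (exp T * a T) ^ 2 := by
      have := S.pos T; have := exp_pos T; positivity
    have h1 := grow_lin (κ := κ * (exp T * a T) ^ 2) (t0 := T) S.dg (fun x hx => by
      refine le_trans ?_ (hd x hx)
      have h2 := S.vmono hx
      have h3 : 0 ≤ exp T * a T := (mul_pos (exp_pos T) (S.pos T)).le
      exact mul_le_mul_of_nonneg_left (pow_le_pow_left₀ h3 h2 2) hκ.le)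
      (show T ≤ t by linarith)
    have h2 := S.g0 T
    nlinarith
  refine grow_blow (κ := κ / 4) (t0 := T + 1) (by positivity) S.dg hg ?_
  intro t ht
  refine le_trans ?_ (hd t (by linarith))
  have h1 := pow_le_pow_left₀ (S.g0 t) (S.gv t) 2
  nlinarith

/-- `B` cannot be negative and of order `e^t` -/
theorem Sol.no_neg (S : Sol c m n a a1) {κ T : ℝ} (hκ : 0 < κ)
    (h : ∀ t, T ≤ t → gB c m n a t ≤ -(κ * exp t)) : False := by
  set K := κ * (exp T * a T) ^ 2 with hK
  have hv : 0 < K := by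
    have := S.pos T; have := exp_pos T; positivity
  have h1 : ∀ t, T ≤ t → K ≤ -(exp t * a t ^ 2 * gB c m n a t) := by
    intro t ht
    have h2 := mul_le_mul_of_nonneg_left (h t ht)
      (mul_nonneg (exp_pos t).le (sq_nonneg (a t)))
    have h3 := S.vmono ht
    have h4 : 0 ≤ exp T * a T := (mul_pos (exp_pos T) (S.pos T)).le
    have h5 := mul_le_mul_of_nonneg_left (pow_le_pow_left₀ h4 h3 2) hκ.le
    nlinarith
  set t := T + (gg a a1 T + 1) / K with ht
  have ht' : T ≤ t := by
    have : 0 ≤ (gg a a1 T + 1) / K := div_nonneg (by linarith [S.g0 T]) hv.le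
    linarith
  have h2 := grow_lin (f := fun t => -gg a a1 t) (κ := K) (t0 := T) (fun t => (S.dg t).neg) h1 ht'
  have h3 := S.g0 t
  have h4 : K * (t - T) = gg a a1 T + 1 := by
    rw [ht, add_sub_cancel_left, mul_div_cancel₀ _ hv.ne']
  have h5 : -gg a a1 T + K * (t - T) ≤ -gg a a1 t := h2
  linarith

/-! ### the case `c < 0` -/

theorem Sol.neg_fwd (S : Sol c m n a a1) (hc : c < 0) {t0 : ℝ} (h0 : gB c m n a t0 ≠ 0)
    (hφ : 0 ≤ gB c m n a t0 * gB1 c m n a1 t0) : False := by
  set B := gB c m n a with hB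
  set B1 := gB1 c m n a1 with hB1
  have dφ : ∀ t, HasDerivAt (fun t => B t * B1 t)
      (B1 t * B1 t + B t * ((1 - c * a t ^ 2) * B t)) t := fun t => (S.dB t).mul (S.dB1 t)
  have hq : ∀ t, B1 t * B1 t + B t * B t ≤ B1 t * B1 t + B t * ((1 - c * a t ^ 2) * B t) := by
    intro t
    have : 0 ≤ -c * a t ^ 2 * B t ^ 2 := by
      have : 0 ≤ -c := by linarith
      positivity
    nlinarith
  have φ0 : ∀ t, t0 ≤ t → 0 ≤ B t * B1 t := by
    intro t ht
    have := grow_mono dφ (fun x _ => by nlinarith [hq x, sq_nonneg (B1 x), sq_nonneg (B x)]) ht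
    linarith
  have dB2 : ∀ t, HasDerivAt (fun t => B t * B t) (B1 t * B t + B t * B1 t) t :=
    fun t => (S.dB t).mul (S.dB t)
  have B2 : ∀ t, t0 ≤ t → B t0 * B t0 ≤ B t * B t := by
    intro t ht
    exact grow_mono dB2 (fun x hx => by linarith [φ0 x hx]) ht
  have hb0 : 0 < B t0 * B t0 := mul_self_pos.2 h0
  -- positive product at `t0 + 1`
  set φ1 := B (t0 + 1) * B1 (t0 + 1) with hφ1
  have hφ1p : 0 < φ1 := by
    have := grow_lin (κ := B t0 * B t0) (t0 := t0) dφ (fun x hx => by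
      have h1 := hq x
      have h2 := B2 x hx
      nlinarith [sq_nonneg (B1 x)]) (show t0 ≤ t0 + 1 by linarith)
    have e : B t0 * B t0 * (t0 + 1 - t0) = B t0 * B t0 := by ring
    rw [e] at this
    linarith
  -- exponential growth
  have d2 : ∀ t, HasDerivAt (fun t => exp (-(2 * t)) * (B t * B1 t))
      (-2 * exp (-(2 * t)) * (B t * B1 t) + exp (-(2 * t)) *
        (B1 t * B1 t + B t * ((1 - c * a t ^ 2) * B t))) t := by
    intro t
    have e1 : HasDerivAt (fun t => exp (-(2 * t))) (-2 * exp (-(2 * t))) t := by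
      have := (((hasDerivAt_id t).const_mul 2).neg).exp
      refine this.congr_deriv ?_
      simp; ring
    exact e1.mul (dφ t)
  have φg : ∀ t, t0 + 1 ≤ t → exp (-(2 * (t0 + 1))) * φ1 ≤ exp (-(2 * t)) * (B t * B1 t) := by
    intro t ht
    refine grow_mono d2 (fun x _ => ?_) ht
    have h1 := hq x
    have h2 : 0 ≤ exp (-(2 * x)) := (exp_pos _).le
    have h3 : 0 ≤ (B1 x * B1 x + B x * ((1 - c * a x ^ 2) * B x)) - 2 * (B x * B1 x) := by
      nlinarith [sq_nonneg (B1 x - B x)]
    nlinarith [mul_nonneg h2 h3]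
  set A := exp (-(2 * (t0 + 1))) * φ1 with hA
  have hAp : 0 < A := by positivity
  have φg' : ∀ t, t0 + 1 ≤ t → A * exp (2 * t) ≤ B t * B1 t := by
    intro t ht
    have h1 := mul_le_mul_of_nonneg_right (φg t ht) (exp_pos (2 * t)).le
    have h2 : exp (-(2 * t)) * exp (2 * t) = 1 := by rw [← exp_add]; simp
    calc A * exp (2 * t) ≤ exp (-(2 * t)) * (B t * B1 t) * exp (2 * t) := h1
      _ = (exp (-(2 * t)) * exp (2 * t)) * (B t * B1 t) := by ring
      _ = B t * B1 t := by rw [h2, one_mul]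
  have d3 : ∀ t, HasDerivAt (fun t => B t * B t - A * exp (2 * t))
      (B1 t * B t + B t * B1 t - A * (2 * exp (2 * t))) t := by
    intro t
    have e1 : HasDerivAt (fun t => exp (2 * t)) (2 * exp (2 * t)) t := by
      have := ((hasDerivAt_id t).const_mul 2).exp
      refine this.congr_deriv ?_
      simp; ring
    exact (dB2 t).sub (e1.const_mul A)
  have B3 : ∀ t, t0 + 1 ≤ t → B t0 * B t0 - A * exp (2 * (t0 + 1)) + A * exp (2 * t) ≤
      B t * B t := by
    intro t ht
    have h1 : B (t0 + 1) * B (t0 + 1) - A * exp (2 * (t0 + 1)) ≤ B t * B t - A * exp (2 * t) :=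
      grow_mono d3 (fun x hx => by nlinarith [φg' x hx]) ht
    have h2 := B2 (t0 + 1) (by linarith)
    linarith
  -- `B² ≥ (A/2) e^(2t)` for `t ≥ t0 + 2`
  have B4 : ∀ t, t0 + 2 ≤ t → A / 2 * exp (2 * t) ≤ B t * B t := by
    intro t ht
    have h1 := B3 t (by linarith)
    have h2 : 2 * exp (2 * (t0 + 1)) ≤ exp (2 * t) := by
      have h3 : exp (2 * (t0 + 1)) * exp 1 ≤ exp (2 * t) := by
        rw [← exp_add]; exact exp_le_exp.2 (by linarith)
      have h4 : (2 : ℝ) ≤ exp 1 := by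
        have := add_one_le_exp (1 : ℝ); linarith
      nlinarith [exp_pos (2 * (t0 + 1))]
    nlinarith
  set κ := Real.sqrt (A / 2) with hκ
  have hκp : 0 < κ := Real.sqrt_pos.2 (by positivity)
  have hκ2 : κ * κ = A / 2 := Real.mul_self_sqrt (by positivity)
  have B5 : ∀ t, t0 + 2 ≤ t → κ * exp t ≤ |B t| := by
    intro t ht
    have h1 := B4 t ht
    have h2 : (κ * exp t) * (κ * exp t) ≤ B t * B t := by
      have : exp (2 * t) = exp t * exp t := by rw [← exp_add]; ring_nf
      calc (κ * exp t) * (κ * exp t) = (κ * κ) * (exp t * exp t) := by ring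
        _ = A / 2 * exp (2 * t) := by rw [hκ2, this]
        _ ≤ _ := h1
    have h3 := sq_le_sq.1 (show (κ * exp t) ^ 2 ≤ B t ^ 2 by nlinarith)
    rwa [abs_of_pos (by positivity : 0 < κ * exp t)] at h3
  -- constant sign
  have hcont : Continuous B := continuous_iff_continuousAt.2 fun t => (S.dB t).continuousAt
  have hne : ∀ t, t0 + 2 ≤ t → B t ≠ 0 := by
    intro t ht h
    have := B5 t ht
    rw [h, abs_zero] at this
    have : 0 < κ * exp t := by positivity
    linarith
  rcases lt_or_gt_of_ne (hne (t0 + 2) le_rfl) with h | h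
  · refine S.no_neg (κ := κ) (T := t0 + 2) hκp fun t ht => ?_
    have hs : B t < 0 := by
      by_contra hc'
      push Not at hc'
      obtain ⟨x, hx, hx0⟩ := intermediate_value_Icc ht hcont.continuousOn ⟨h.le, hc'⟩
      exact hne x hx.1 hx0
    have := B5 t ht
    rw [abs_of_neg hs] at this
    show B t ≤ _
    linarith
  · refine S.no_pos (κ := κ) (T := t0 + 2) hκp fun t ht => ?_
    have hs : 0 < B t := by
      by_contra hc'
      push Not at hc'
      obtain ⟨x, hx, hx0⟩ := intermediate_value_Icc' ht hcont.continuousOn ⟨hc', h.le⟩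
      exact hne x hx.1 hx0
    have := B5 t ht
    rwa [abs_of_pos hs] at this

theorem gB_rev (c m n : ℝ) (a : ℝ → ℝ) (t : ℝ) :
    gB c n m (fun t => a (-t)) t = gB c m n a (-t) := by
  unfold gB; rw [neg_neg]; ring

theorem gB1_rev (c m n : ℝ) (a1 : ℝ → ℝ) (t : ℝ) :
    gB1 c n m (fun t => -a1 (-t)) t = -gB1 c m n a1 (-t) := by
  unfold gB1; rw [neg_neg]; ring

theorem Sol.neg_case (S : Sol c m n a a1) (hc : c < 0) (t : ℝ) : gB c m n a t = 0 := by
  by_contra h0
  rcases le_total 0 (gB c m n a t * gB1 c m n a1 t) with h | h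
  · exact S.neg_fwd hc h0 h
  · refine S.rev.neg_fwd hc (t0 := -t) ?_ ?_
    · rw [gB_rev, neg_neg]; exact h0
    · rw [gB_rev, gB1_rev, neg_neg]; linarith

end Pool.Agent.Helper29.N2
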