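import Pool.Agent.Helper29.N2.Grow

/-!
The growth argument, case `c > 0`.
-/

set_option autoImplicit false
noncomputable section
namespace Pool.Agent.Helper29.N2

open Real

/-! ### the linear system `s' = 2 s - γ`, `γ' = w s` -/

theorem osc_no_pos {s γ w : ℝ → ℝ} (hs : ∀ t, HasDerivAt s (2 * s t - γ t) t)
    (hγ : ∀ t, HasDerivAt γ (w t * s t) t) {T : ℝ} (hw : ∀ t, T ≤ t → 5 ≤ w t)
    (hp : ∀ t, T ≤ t → 0 < s t) : False := by
  -- `χ = 2 s - γ ≥ 0`
  have dχ : ∀ t, HasDerivAt (fun t => 2 * s t - γ t) (2 * (2 * s t - γ t) - w t * s t) t :=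
    fun t => ((hs t).const_mul 2).sub (hγ t)
  have hχ : ∀ t, T ≤ t → 0 ≤ 2 * s t - γ t := by
    intro t1 ht1
    by_contra hneg
    push Not at hneg
    set k := 2 * s t1 - γ t1 with hk
    have e1 : ∀ t, HasDerivAt (fun t => exp (-(2 * t))) (-2 * exp (-(2 * t))) t := by
      intro t
      have := (((hasDerivAt_id t).const_mul 2).neg).exp
      refine this.congr_deriv ?_
      simp; ring
    have d2 : ∀ t, HasDerivAt (fun t => exp (-(2 * t)) * (2 * s t - γ t))
        (-2 * exp (-(2 * t)) * (2 * s t - γ t) +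
          exp (-(2 * t)) * (2 * (2 * s t - γ t) - w t * s t)) t := fun t => (e1 t).mul (dχ t)
    have h1 : ∀ t, t1 ≤ t → 2 * s t - γ t ≤ k := by
      intro t ht
      have h2 : exp (-(2 * t)) * (2 * s t - γ t) ≤ exp (-(2 * t1)) * k :=
        grow_anti d2 (fun x hx => by
          have h3 : 0 ≤ w x * s x := by
            have := hw x (ht1.trans hx); have := hp x (ht1.trans hx)
            positivity
          have h4 := mul_nonneg (exp_pos (-(2 * x))).le h3
          nlinarith) ht
      have h5 : exp (-(2 * t1)) * k ≤ exp (-(2 * t)) * k := by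
        have : exp (-(2 * t)) ≤ exp (-(2 * t1)) := exp_le_exp.2 (by linarith)
        nlinarith
      exact le_of_mul_le_mul_left (h2.trans h5) (exp_pos _)
    set t := t1 + s t1 / (-k) with ht
    have hkn : 0 < -k := by linarith
    have hs1 := hp t1 ht1
    have htt : t1 ≤ t := by
      have : 0 ≤ s t1 / (-k) := by positivity
      linarith
    have h3 : -s t1 + (-k) * (t - t1) ≤ -s t :=
      grow_lin (f := fun t => -s t) (f' := fun t => -(2 * s t - γ t)) (fun t => (hs t).neg)
        (fun x hx => by linarith [h1 x hx]) htt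
    have h4 : (-k) * (t - t1) = s t1 := by
      rw [ht, add_sub_cancel_left, mul_div_cancel₀ _ hkn.ne']
    have h5 := hp t (ht1.trans htt)
    linarith
  -- `s` is nondecreasing
  have hs0 : ∀ t, T ≤ t → s T ≤ s t := fun t ht => grow_mono hs hχ ht
  have hsT := hp T le_rfl
  -- `γ ≥ 0` eventually
  set T2 := T + |γ T| / (5 * s T) with hT2
  have hT2' : T ≤ T2 := by
    have : 0 ≤ |γ T| / (5 * s T) := by positivity
    linarith
  have hγ0 : ∀ t, T2 ≤ t → 0 ≤ γ t := by
    intro t ht
    have h1 := grow_lin (κ := 5 * s T) hγ (fun x hx => by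
      have h1 := hw x hx
      have h2 := hs0 x hx
      nlinarith) (hT2'.trans ht)
    have h2 : |γ T| ≤ 5 * s T * (t - T) := by
      have h3 : 5 * s T * (T2 - T) = |γ T| := by
        rw [hT2, add_sub_cancel_left, mul_div_cancel₀ _ (by positivity)]
      have h4 : 5 * s T * (T2 - T) ≤ 5 * s T * (t - T) :=
        mul_le_mul_of_nonneg_left (by linarith) (by positivity)
      linarith
    have h3 := neg_abs_le (γ T)
    linarith
  -- `γ - 2 s` grows
  have h6 : ∀ t, T2 ≤ t → -(2 * s T2 - γ T2) + s T * (t - T2) ≤ -(2 * s t - γ t) := by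
    intro t ht
    refine grow_lin (f := fun t => -(2 * s t - γ t)) (fun t => (dχ t).neg) (fun x hx => ?_) ht
    have h1 := hw x (hT2'.trans hx)
    have h2 := hs0 x (hT2'.trans hx)
    have h3 := hγ0 x hx
    nlinarith
  set t := T2 + (2 * s T2 - γ T2 + 1) / s T with ht
  have hχ2 := hχ T2 hT2'
  have htt : T2 ≤ t := by
    have : 0 ≤ (2 * s T2 - γ T2 + 1) / s T := by positivity
    linarith
  have h7 := h6 t htt
  have h8 : s T * (t - T2) = 2 * s T2 - γ T2 + 1 := by
    rw [ht, add_sub_cancel_left, mul_div_cancel₀ _ hsT.ne']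
  have h9 := hχ t (hT2'.trans htt)
  linarith

/-- upward crossings exist at arbitrarily late times -/
theorem osc_cross {s γ w : ℝ → ℝ} (hs : ∀ t, HasDerivAt s (2 * s t - γ t) t)
    (hγ : ∀ t, HasDerivAt γ (w t * s t) t) {T : ℝ} (hw : ∀ t, T ≤ t → 5 ≤ w t) :
    ∃ τ, T ≤ τ ∧ s τ = 0 ∧ γ τ ≤ 0 := by
  by_contra hcon
  push Not at hcon
  obtain ⟨t1, ht1, hs1⟩ : ∃ t1, T ≤ t1 ∧ s t1 ≤ 0 := by
    by_contra h
    push Not at h
    exact osc_no_pos hs hγ hw h
  have hle : ∀ t, t1 ≤ t → s t ≤ 0 := by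
    intro t ht
    have := image_le_of_deriv_right_lt_deriv_boundary' (f := s) (f' := fun t => 2 * s t - γ t)
      (a := t1) (b := t) (B := fun _ => (0 : ℝ)) (B' := fun _ => 0)
      (fun x _ => (hs x).continuousAt.continuousWithinAt)
      (fun x _ => (hs x).hasDerivWithinAt) hs1 continuousOn_const
      (fun x _ => hasDerivWithinAt_const _ _ _) (fun x hx h0 => by
        have h1 := hcon x (ht1.trans hx.1) h0
        rw [h0]; linarith)
    exact this ⟨ht, le_rfl⟩
  have hlt : ∀ t, t1 + 1 ≤ t → s t < 0 := by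
    intro t ht
    refine lt_of_le_of_ne (hle t (by linarith)) fun h0 => ?_
    have hmax : IsLocalMax s t := by
      have : ∀ᶠ x in nhds t, t1 < x := lt_mem_nhds (by linarith)
      filter_upwards [this] with x hx
      rw [h0]; exact hle x hx.le
    have h1 := hmax.hasDerivAt_eq_zero (hs t)
    have h2 := hcon t (by linarith) h0
    rw [h0] at h1
    linarith
  refine osc_no_pos (s := fun t => -s t) (γ := fun t => -γ t) (w := w) (T := t1 + 1)
    (fun t => ?_) (fun t => ?_) (fun t ht => hw t (by linarith)) (fun t ht => ?_)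
  · exact (hs t).neg.congr_deriv (by ring)
  · exact (hγ t).neg.congr_deriv (by ring)
  · show 0 < -s t
    linarith [hlt t ht]

/-- bounded energy is impossible -/
theorem osc_zero {s γ w ω : ℝ → ℝ} (hs : ∀ t, HasDerivAt s (2 * s t - γ t) t)
    (hγ : ∀ t, HasDerivAt γ (w t * s t) t) (hω : ∀ t, HasDerivAt w (ω t) t)
    (hw0 : ∀ t, 0 < w t) (hω0 : ∀ t, -(2 * w t) ≤ ω t)
    {T : ℝ} (hw : ∀ t, T ≤ t → 5 ≤ w t) {n : ℝ} (hn : ∀ t, -(2 * n) ≤ γ t) (t : ℝ) :
    s t = 0 := by
  have dE : ∀ t, HasDerivAt (fun t => γ t * γ t + w t * (s t * s t))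
      ((ω t + 4 * w t) * (s t * s t)) t := by
    intro t
    have := ((hγ t).mul (hγ t)).add ((hω t).mul ((hs t).mul (hs t)))
    refine this.congr_deriv ?_
    simp only [Pi.mul_apply]
    ring
  have hE' : ∀ t, 2 * w t * (s t * s t) ≤ (ω t + 4 * w t) * (s t * s t) := by
    intro t
    exact mul_le_mul_of_nonneg_right (by linarith [hω0 t]) (mul_self_nonneg _)
  have Emono : ∀ {x y : ℝ}, x ≤ y →
      γ x * γ x + w x * (s x * s x) ≤ γ y * γ y + w y * (s y * s y) := by
    intro x y hxy
    exact grow_mono dE (fun z _ => le_trans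
      (mul_nonneg (by linarith [hw0 z]) (mul_self_nonneg (s z))) (hE' z)) hxy
  have Ebd : ∀ t, γ t * γ t + w t * (s t * s t) ≤ 4 * n ^ 2 := by
    intro t
    obtain ⟨τ, hτ, h0, hγτ⟩ := osc_cross hs hγ (T := max T t)
      (fun x hx => hw x ((le_max_left _ _).trans hx))
    refine (Emono ((le_max_right _ _).trans hτ)).trans ?_
    rw [h0]
    have := hn τ
    nlinarith
  by_contra hne
  -- a later time with positive energy
  set t0 := max T t with ht0
  set E0 := γ t * γ t + w t * (s t * s t) with hE0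
  have hE0p : 0 < E0 := by
    have h1 : 0 < s t * s t := mul_self_pos.2 hne
    have h2 := mul_pos (hw0 t) h1
    nlinarith [mul_self_nonneg (γ t)]
  have dW : ∀ t, HasDerivAt (fun t => γ t * γ t + w t * (s t * s t) - s t * γ t)
      ((ω t + 4 * w t) * (s t * s t) - ((2 * s t - γ t) * γ t + s t * (w t * s t))) t :=
    fun t => (dE t).sub ((hs t).mul (hγ t))
  have hW' : ∀ x, t0 ≤ x → E0 / 2 ≤
      (ω x + 4 * w x) * (s x * s x) - ((2 * s x - γ x) * γ x + s x * (w x * s x)) := by
    intro x hx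
    have h1 := hE' x
    have h2 := Emono ((le_max_right T t).trans hx)
    have h3 := hw x ((le_max_left T t).trans hx)
    have h4 : 5 * (s x * s x) ≤ w x * (s x * s x) :=
      mul_le_mul_of_nonneg_right h3 (mul_self_nonneg _)
    have h5 : 0 ≤ (2 * s x - γ x) * (2 * s x - γ x) := mul_self_nonneg _
    nlinarith [mul_self_nonneg (s x), mul_self_nonneg (γ x)]
  set M := 2 * (4 * n ^ 2) with hM
  have hWb : ∀ x, t0 ≤ x → γ x * γ x + w x * (s x * s x) - s x * γ x ≤ M := by
    intro x hx
    have h2 := Ebd x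
    have h3 := hw x ((le_max_left T t).trans hx)
    have h4 : 5 * (s x * s x) ≤ w x * (s x * s x) :=
      mul_le_mul_of_nonneg_right h3 (mul_self_nonneg _)
    nlinarith [mul_self_nonneg (s x + γ x), mul_self_nonneg (s x), mul_self_nonneg (γ x)]
  set W0 := γ t0 * γ t0 + w t0 * (s t0 * s t0) - s t0 * γ t0 with hW0
  set x := t0 + (M - W0 + 1) / (E0 / 2) with hx
  have hxx : t0 ≤ x := by
    have h1 := hWb t0 le_rfl
    have : 0 ≤ (M - W0 + 1) / (E0 / 2) := div_nonneg (by linarith) (by positivity)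
    linarith
  have h1 := grow_lin (κ := E0 / 2) dW hW' hxx
  have h2 : E0 / 2 * (x - t0) = M - W0 + 1 := by
    rw [hx, add_sub_cancel_left, mul_div_cancel₀ _ (by positivity)]
  have h3 := hWb x hxx
  linarith

/-! ### the case `c > 0` -/

variable {c m n : ℝ} {a a1 : ℝ → ℝ}

theorem small_exp {K : ℝ} (hK : 0 < K) (n : ℝ) {t : ℝ} (ht : |n| / K ≤ t) :
    |n| * exp (-t) ≤ K * exp t := by
  have h1 : |n| / K ≤ exp (2 * t) := by
    have h2 := add_one_le_exp (2 * t)
    have h3 : 0 ≤ |n| / K := by positivity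
    linarith
  rw [div_le_iff₀ hK] at h1
  have h4 : exp (2 * t) * exp (-t) = exp t := by rw [← exp_add]; ring_nf
  calc |n| * exp (-t) ≤ exp (2 * t) * K * exp (-t) :=
        mul_le_mul_of_nonneg_right h1 (exp_pos _).le
    _ = K * (exp (2 * t) * exp (-t)) := by ring
    _ = K * exp t := by rw [h4]

theorem Sol.m_nonneg (S : Sol c m n a a1) (hc : 0 < c) : 0 ≤ m := by
  by_contra hm
  push Not at hm
  have hK : 0 < -m / 2 := by linarith
  refine S.no_pos (κ := c * (-m / 2)) (T := |n| / (-m / 2)) (by positivity) fun t ht => ?_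
  have h1 := small_exp hK n ht
  have h2 : n * exp (-t) ≤ |n| * exp (-t) :=
    mul_le_mul_of_nonneg_right (le_abs_self n) (exp_pos _).le
  have h3 := S.pos t
  unfold gB
  rw [mul_assoc]
  refine mul_le_mul_of_nonneg_left ?_ hc.le
  linarith

/-- `a ≥ (m/2) e^t` -/
theorem Sol.a_large (S : Sol c m n a a1) (hc : 0 < c) (hm : 0 < m) :
    ∃ T, ∀ t, T ≤ t → m / 2 * exp t ≤ a t := by
  by_contra hcon
  push Not at hcon
  obtain ⟨t1, ht1, h1⟩ := hcon (|n| / (m / 4))
  have hK : 0 < m / 4 := by linarith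
  refine S.no_neg (κ := c * (m / 4)) (T := t1) (by positivity) fun t ht => ?_
  have h2 := S.panti ht
  have e1 : exp t * exp (-t) = 1 := by rw [← exp_add]; simp
  have e2 : exp t1 * exp (-t1) = 1 := by rw [← exp_add]; simp
  have h3 : exp (-t1) * a t1 ≤ m / 2 := by
    have := mul_le_mul_of_nonneg_left h1.le (exp_pos (-t1)).le
    calc exp (-t1) * a t1 ≤ exp (-t1) * (m / 2 * exp t1) := this
      _ = m / 2 * (exp t1 * exp (-t1)) := by ring
      _ = m / 2 := by rw [e2, mul_one]
  have h4 : a t ≤ m / 2 * exp t := by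
    have := mul_le_mul_of_nonneg_left (h2.trans h3) (exp_pos t).le
    calc a t = (exp t * exp (-t)) * a t := by rw [e1, one_mul]
      _ = exp t * (exp (-t) * a t) := by ring
      _ ≤ exp t * (m / 2) := this
      _ = _ := by ring
  have h5 := small_exp hK n (ht1.trans ht)
  have h6 : -(n * exp (-t)) ≤ |n| * exp (-t) := by
    have := mul_le_mul_of_nonneg_right (neg_le_abs n) (exp_pos (-t)).le
    linarith
  unfold gB
  have h7 : a t - (m * exp t + n * exp (-t)) ≤ -(m / 4 * exp t) := by linarith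
  have := mul_le_mul_of_nonneg_left h7 hc.le
  linarith

theorem Sol.pos_case (S : Sol c m n a a1) (hc : 0 < c) (hm : 0 < m) (t : ℝ) :
    gB c m n a t = 0 := by
  obtain ⟨T, hT⟩ := S.a_large hc hm
  -- the linear system
  set s : ℝ → ℝ := fun t => exp t * (a t - (m * exp t + n * exp (-t))) with hs
  set γ : ℝ → ℝ := fun t => gg a a1 t - 2 * n with hγ
  have ee : ∀ t, exp t * exp (-t) = 1 := fun t => by rw [← exp_add]; simp
  have ds : ∀ t, HasDerivAt s (2 * s t - γ t) t := by
    intro t
    have := (Real.hasDerivAt_exp t).mul ((S.h1 t).sub (((Real.hasDerivAt_exp t).const_mul m).add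
      ((hexpn t).const_mul n)))
    refine this.congr_deriv ?_
    simp only [hs, hγ, gg, Pi.sub_apply, Pi.add_apply]
    linear_combination (2 * n) * ee t
  have dγ : ∀ t, HasDerivAt γ ((c * a t ^ 2) * s t) t := by
    intro t
    have := (S.dg t).sub_const (2 * n)
    refine this.congr_deriv ?_
    simp only [hs, gB]
    ring
  have dw : ∀ t, HasDerivAt (fun t => c * a t ^ 2) (c * (2 * a t * a1 t)) t := by
    intro t
    have := ((S.h1 t).pow 2).const_mul c
    refine this.congr_deriv ?_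
    simp
  have hw0 : ∀ t, 0 < c * a t ^ 2 := fun t => by have := S.pos t; positivity
  have hω0 : ∀ t, -(2 * (c * a t ^ 2)) ≤ c * (2 * a t * a1 t) := by
    intro t
    have h1 := (abs_le.1 (S.bd t)).1
    have h2 := S.pos t
    have h3 := mul_le_mul_of_nonneg_left h1 h2.le
    have h4 := mul_le_mul_of_nonneg_left h3 hc.le
    nlinarith
  -- `c a² ≥ 5` eventually
  have hw : ∀ t, max T (max 0 (5 / (c * (m / 2) ^ 2))) ≤ t → 5 ≤ c * a t ^ 2 := by
    intro t ht
    have h1 := hT t ((le_max_left _ _).trans ht)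
    have h2 : 0 ≤ t := (le_max_left _ _).trans ((le_max_right _ _).trans ht)
    have h3 : 5 / (c * (m / 2) ^ 2) ≤ t :=
      (le_max_right _ _).trans ((le_max_right _ _).trans ht)
    have hcm : 0 < c * (m / 2) ^ 2 := by positivity
    rw [div_le_iff₀ hcm] at h3
    have h4 : t ≤ exp t ^ 2 := by
      have h5 := add_one_le_exp t
      nlinarith
    have h6 : (m / 2 * exp t) ^ 2 ≤ a t ^ 2 := pow_le_pow_left₀ (by positivity) h1 2
    calc 5 ≤ t * (c * (m / 2) ^ 2) := h3
      _ ≤ exp t ^ 2 * (c * (m / 2) ^ 2) := mul_le_mul_of_nonneg_right h4 hcm.le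
      _ = c * (m / 2 * exp t) ^ 2 := by ring
      _ ≤ c * a t ^ 2 := mul_le_mul_of_nonneg_left h6 hc.le
  have h0 := osc_zero ds dγ dw hw0 hω0 hw (n := n) (fun t => by
    have := S.g0 t
    simp only [hγ]
    linarith) t
  simp only [hs] at h0
  rcases mul_eq_zero.1 h0 with h | h
  · exact absurd h (exp_pos t).ne'
  · unfold gB; rw [h, mul_zero]

/-- GROWTH: either the harmonic part vanishes or the first component of the mean curvature
vector vanishes -/
theorem rot_growth (hc : c ≠ 0) (S : Sol c m n a a1) :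
    (m = 0 ∧ n = 0) ∨ ∀ t, a t = m * exp t + n * exp (-t) := by
  have key : (∀ t, gB c m n a t = 0) → ∀ t, a t = m * exp t + n * exp (-t) := by
    intro h t
    have := h t
    unfold gB at this
    rcases mul_eq_zero.1 this with h' | h'
    · exact absurd h' hc
    · linarith
  rcases lt_or_gt_of_ne hc with hc' | hc'
  · exact Or.inr (key (S.neg_case hc'))
  · have hm := S.m_nonneg hc'
    have hn := S.rev.m_nonneg hc'
    rcases hm.eq_or_lt with hm0 | hm0
    · rcases hn.eq_or_lt with hn0 | hn0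
      · exact Or.inl ⟨hm0.symm, hn0.symm⟩
      · refine Or.inr (key fun t => ?_)
        have := S.rev.pos_case hc' hn0 (-t)
        rwa [gB_rev, neg_neg] at this
    · exact Or.inr (key (S.pos_case hc' hm0))

end Pool.Agent.Helper29.N2
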