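import Pool.Agent.Helper29.N2.RotEnd
import Pool.Agent.Helper58.N4.Loc
import Pool.Agent.Helper3.NF.PF

/-!
Rotational null 2-type surfaces with flat normal bundle: from the structure equations on an open
set to the scalar system along an integral curve, and the exclusion of the rotational case.
-/

set_option autoImplicit false
set_option linter.unusedSimpArgs false
noncomputable section
namespace Pool.Agent.Helper29.N2

open Set Filter Topology Metric N4
open scoped ContDiff

/-- integral curves of a derivation -/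
theorem curve (V : TopologicalSpace.Opens (ℝ × ℝ)) (A B : SF V) (q0 : V) :
    ∃ ε > (0 : ℝ), ∃ γ : ℝ → ℝ × ℝ, (∀ t ∈ Ioo (-ε) ε, γ t ∈ V) ∧ γ 0 = q0 ∧
      ∀ u : SF V, ∀ t ∈ Ioo (-ε) ε, HasDerivAt (fun t => ext V u.1 (γ t))
        (ext V ((A • Pu V + B • Pv V) u).1 (γ t)) t := by
  set F : ℝ × ℝ → ℝ × ℝ := fun q => (ext V A.1 q, ext V B.1 q) with hF
  have hsm : ContDiffAt ℝ 1 F q0 := by
    have h1 : ContDiffAt ℝ ∞ (ext V A.1) q0 := (sf_smooth A).contDiffAt (V.isOpen.mem_nhds q0.2)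
    have h2 : ContDiffAt ℝ ∞ (ext V B.1) q0 := (sf_smooth B).contDiffAt (V.isOpen.mem_nhds q0.2)
    exact (h1.prodMk h2).of_le (by exact_mod_cast le_top)
  obtain ⟨r, hr, ε, hε, hex⟩ :=
    hsm.exists_forall_mem_closedBall_exists_eq_forall_mem_Ioo_hasDerivAt 0
  obtain ⟨γ, h0, hγ⟩ := hex q0 (mem_closedBall_self hr.le)
  have hc : ContinuousAt γ 0 := (hγ 0 ⟨by linarith, by linarith⟩).continuousAt
  have hV : γ ⁻¹' V ∈ 𝓝 (0 : ℝ) := hc.preimage_mem_nhds (by
    rw [h0]; exact V.isOpen.mem_nhds q0.2)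
  obtain ⟨δ, hδ, hball⟩ := Metric.mem_nhds_iff.1 hV
  refine ⟨min ε δ, lt_min hε hδ, γ, ?_, h0, ?_⟩
  · intro t ht
    have h1 := ht.1
    have h2 := ht.2
    have h3 := min_le_right ε δ
    exact hball (by rw [mem_ball, dist_zero_right, Real.norm_eq_abs, abs_lt]
                    constructor <;> linarith)
  · intro u t ht
    have h1 := ht.1
    have h2 := ht.2
    have h3 := min_le_right ε δ
    have h4 := min_le_left ε δ
    have hV : γ t ∈ V := hball (by rw [mem_ball, dist_zero_right, Real.norm_eq_abs, abs_lt]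
                                   constructor <;> linarith)
    have hd := hγ t ⟨by linarith, by linarith⟩
    have hu := (diff_at V _ (sf_smooth u) (γ t) hV).hasFDerivAt
    refine (hu.comp_hasDerivAt t hd).congr_deriv ?_
    rw [ext_of_mem V _ _ hV]
    have e1 : (A • Pu V + B • Pv V) u = A * Pu V u + B * Pv V u := comb_apply A B u
    rw [e1, val_add, val_mul, val_mul]
    have e2 : F (γ t) = A.1 ⟨γ t, hV⟩ • ((1, 0) : ℝ × ℝ) + B.1 ⟨γ t, hV⟩ • ((0, 1) : ℝ × ℝ) := by
      simp only [hF, ext_of_mem V _ _ hV]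
      simp
    rw [e2, map_add, map_smul, map_smul, smul_eq_mul, smul_eq_mul]
    rfl

theorem val3 {V : TopologicalSpace.Opens (ℝ × ℝ)} (x : V) : (3 : SF V).1 x = 3 := by
  have h : (3 : SF V) = algebraMap ℝ (SF V) 3 := (map_ofNat (algebraMap ℝ (SF V)) 3).symm
  rw [h, val_const]

theorem val4 {V : TopologicalSpace.Opens (ℝ × ℝ)} (x : V) : (4 : SF V).1 x = 4 := by
  have h : (4 : SF V) = algebraMap ℝ (SF V) 4 := (map_ofNat (algebraMap ℝ (SF V)) 4).symm
  rw [h, val_const]

theorem val6 {V : TopologicalSpace.Opens (ℝ × ℝ)} (x : V) : (6 : SF V).1 x = 6 := by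
  have h : (6 : SF V) = algebraMap ℝ (SF V) 6 := (map_ofNat (algebraMap ℝ (SF V)) 6).symm
  rw [h, val_const]

/-- THE ROTATIONAL CASE IS IMPOSSIBLE -/
theorem rot_false {V : TopologicalSpace.Opens (ℝ × ℝ)} {c : ℝ}
    {a1 a2 b1 b2 p q h w1 w2 x y : SF V} (hV : (V : Set (ℝ × ℝ)).Nonempty) (hc : c ≠ 0)
    (G : GD V c a1 a2 b1 b2 p q h w1 w2 (h * (1 + x)) 0 (h * (1 - x)) (h * y) 0 (-(h * y)))
    (yu : IsUnit y) (h10 : (a1 • Pu V + a2 • Pv V) h = 0) : False := by
  have hu : IsUnit h := unit_of_pos G.hpos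
  obtain ⟨al, be, -, -, R⟩ := NF.PF.of_se G.se hu yu
  set D1 := a1 • Pu V + a2 • Pv V with hD1
  set D2 := b1 • Pu V + b2 • Pv V with hD2
  have hh : ∀ z : V, 0 < h.1 z := G.hpos
  have hy : ∀ z : V, y.1 z ≠ 0 := unit_ne yu
  -- `al = 0`
  have al0 : ∀ z : V, al.1 z = 0 := by
    intro z
    have h1 := congrArg (fun u : SF V => u.1 z) R.h1
    rw [h10, val_zero, val_mul, val_mul, val_neg] at h1
    have h2 : al.1 z * (h.1 z * y.1 z) = 0 := by linear_combination h1
    exact (mul_eq_zero.1 h2).resolve_right (mul_ne_zero (hh z).ne' (hy z))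
  have al00 : al = 0 := sf_ext fun z => by rw [al0 z, val_zero]
  have hb : ∀ z : V, be.1 z ≠ 0 := by
    intro z hz
    refine G.grad_ne z ⟨by rw [← hD1, h10, val_zero], ?_⟩
    have h1 := congrArg (fun u : SF V => u.1 z) R.h2
    rw [← hD2, h1, val_mul, val_mul, hz, zero_mul, zero_mul]
  have q0 : ∀ z : V, q.1 z = 0 := by
    intro z
    have h1 := R.al2
    rw [al00, map_zero] at h1
    have h2 := congrArg (fun u : SF V => u.1 z) h1
    simp only [val_mul, val_add, val_neg, val_zero, val_two, zero_mul, mul_zero, add_zero] at h2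
    have h3 : 2 * y.1 z * be.1 z * q.1 z = 0 := by linear_combination h2
    exact (mul_eq_zero.1 h3).resolve_left
      (mul_ne_zero (mul_ne_zero two_ne_zero (hy z)) (hb z))
  have q00 : q = 0 := sf_ext fun z => by rw [q0 z, val_zero]
  -- the radius
  set k : SF V := p ^ 2 + h ^ 2 * ((1 + x) ^ 2 + y ^ 2) with hk
  have hkpos : ∀ z : V, 0 < k.1 z := by
    intro z
    have e : k.1 z = p.1 z ^ 2 + h.1 z ^ 2 * ((1 + x.1 z) ^ 2 + y.1 z ^ 2) := rfl
    rw [e]
    have := hh z
    have := hy z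
    positivity
  obtain ⟨s, hss, hs0⟩ := exists_sqrt V k hkpos
  obtain ⟨a, ha⟩ := (unit_of_pos hs0).exists_right_inv
  have hpq : D2 p = p ^ 2 + h ^ 2 * (1 - (x ^ 2 + y ^ 2)) := by
    have h1 := R.pq
    rw [q00, map_zero] at h1
    linear_combination h1
  have D2k : D2 k = 2 * p * k := by
    have e : D2 k = 2 * p * D2 p + (2 * h * D2 h) * ((1 + x) ^ 2 + y ^ 2) +
        h ^ 2 * (2 * (1 + x) * D2 x + 2 * y * D2 y) := by
      have e1 : D2 (1 + x) = D2 x := by rw [map_add, D2.map_one_eq_zero, zero_add]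
      have e2 : D2 (h ^ 2 * ((1 + x) ^ 2 + y ^ 2)) = h ^ 2 * D2 ((1 + x) ^ 2 + y ^ 2) +
          ((1 + x) ^ 2 + y ^ 2) * D2 (h ^ 2) := by
        rw [Derivation.leibniz]; rfl
      rw [hk, map_add, e2, map_add, NF.Dsq, NF.Dsq, NF.Dsq, NF.Dsq, e1]
      ring
    rw [e, hpq, R.h2, R.x2, R.y2]
    ring
  have D2a : D2 a = -(p * a) := by
    have h1 : D2 (s * s) = 2 * p * (s * s) := by rw [hss, D2k]
    have h2 : s * D2 s = p * (s * s) := by
      have h3 : D2 (s * s) = s * D2 s + s * D2 s := by rw [Derivation.leibniz]; rfl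
      rw [← sub_eq_zero]
      apply two_cancel
      linear_combination h1 - h3
    have h4 : s * D2 a + a * D2 s = 0 := by
      have h5 := congrArg D2 ha
      rw [Derivation.leibniz, D2.map_one_eq_zero] at h5
      exact h5
    have h6 : D2 s = p * s := by linear_combination a * h2 - D2 s * ha + p * s * ha
    linear_combination a * h4 - D2 a * ha - a ^ 2 * h6 - a * p * ha
  obtain ⟨z0, hz0⟩ := hV
  obtain ⟨ε, hε, γ, hγ, -, hder⟩ := curve V (a * b1) (a * b2) ⟨z0, hz0⟩
  have hD : ∀ u : SF V, ((a * b1) • Pu V + (a * b2) • Pv V) u = a * D2 u := by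
    intro u
    rw [hD2, comb_apply, comb_apply]; ring
  set E := D2 be with hE
  have hder' : ∀ u : SF V, ∀ t, ∀ ht : t ∈ Ioo (-ε) ε, HasDerivAt (fun t => ext V u.1 (γ t))
      (a.1 ⟨γ t, hγ t ht⟩ * (D2 u).1 ⟨γ t, hγ t ht⟩) t := by
    intro u t ht
    have := hder u t ht
    rw [hD, ext_of_mem V _ _ (hγ t ht), val_mul] at this
    exact this
  have hev : ∀ u : SF V, ∀ t, ∀ ht : t ∈ Ioo (-ε) ε, ext V u.1 (γ t) = u.1 ⟨γ t, hγ t ht⟩ :=
    fun u t ht => ext_of_mem V _ _ (hγ t ht)
  refine RS.false (c := c) (α := -ε) (β := ε) (h := fun t => ext V h.1 (γ t))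
    (x := fun t => ext V x.1 (γ t)) (y := fun t => ext V y.1 (γ t))
    (b := fun t => ext V be.1 (γ t)) (p := fun t => ext V p.1 (γ t))
    (E := fun t => ext V E.1 (γ t)) (a := fun t => ext V a.1 (γ t)) ?_ hc (by linarith)
  refine ⟨fun t ht => ?_, fun t ht => ?_, fun t ht => ?_, fun t ht => ?_, fun t ht => ?_,
    fun t ht => ?_, fun t ht => ?_, fun t ht => ?_, fun t ht => ?_, fun t ht => ?_,
    fun t ht => ?_, fun t ht => ?_, fun t ht => ?_⟩
  · refine (hder' h t ht).congr_deriv ?_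
    simp only [hev _ t ht]
    rw [R.h2, val_mul, val_mul]
  · refine (hder' x t ht).congr_deriv ?_
    simp only [hev _ t ht]
    rw [R.x2]
    simp only [val_add, val_mul, val_sub, val_one, val_two]
  · refine (hder' y t ht).congr_deriv ?_
    simp only [hev _ t ht]
    rw [R.y2]
    simp only [val_add, val_mul, val_sub, val_one, val_two, val_neg, val_pow]
    ring
  · refine (hder' be t ht).congr_deriv ?_
    simp only [hev _ t ht, hE]
  · refine (hder' p t ht).congr_deriv ?_
    simp only [hev _ t ht]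
    rw [hpq]
    simp only [val_add, val_mul, val_sub, val_one, val_two, val_neg, val_pow]
    ring
  · refine (hder' a t ht).congr_deriv ?_
    simp only [hev _ t ht]
    rw [D2a]
    simp only [val_add, val_mul, val_sub, val_one, val_two, val_neg, val_pow]
    ring
  · simp only [hev _ t ht]
    set z : V := ⟨γ t, hγ t ht⟩ with hz
    have k1 := congrArg (fun u : SF V => u.1 z) R.al1
    have k2 := congrArg (fun u : SF V => u.1 z) R.be2
    rw [al00, map_zero] at k1
    rw [al00, ← hE] at k2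
    simp only [val_add, val_mul, val_sub, val_two, val_pow, val_zero, val_const, val3, val4, val6] at k1 k2
    linear_combination (1 / 4) * k1 - (1 / 4) * k2
  · simp only [hev _ t ht]
    set z : V := ⟨γ t, hγ t ht⟩ with hz
    have k1 := congrArg (fun u : SF V => u.1 z) R.al1
    have k2 := congrArg (fun u : SF V => u.1 z) R.be2
    rw [al00, map_zero] at k1
    rw [al00, ← hE] at k2
    simp only [val_add, val_mul, val_sub, val_two, val_pow, val_zero, val_const, val3, val4, val6] at k1 k2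
    refine mul_left_cancel₀ (hy z) ?_
    linear_combination (1 / 2) * (k2 + k1) - (x.1 z / 4) * (k2 - k1)
  · simp only [hev _ t ht]
    set z : V := ⟨γ t, hγ t ht⟩ with hz
    have k1 := inv_val ha z
    have k2 := congrArg (fun u : SF V => u.1 z) hss
    rw [val_mul] at k2
    have e : k.1 z = p.1 z ^ 2 + h.1 z ^ 2 * ((1 + x.1 z) ^ 2 + y.1 z ^ 2) := rfl
    rw [e] at k2
    rw [← k2]
    linear_combination (s.1 z * a.1 z + 1) * k1
  · simp only [hev _ t ht]
    have k1 := inv_val ha ⟨γ t, hγ t ht⟩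
    have k2 := hs0 ⟨γ t, hγ t ht⟩
    by_contra hneg
    push Not at hneg
    have := mul_nonpos_of_nonneg_of_nonpos k2.le hneg
    linarith
  · simp only [hev _ t ht]
    exact hh _
  · simp only [hev _ t ht]
    exact hy _
  · simp only [hev _ t ht]
    exact hb _

end Pool.Agent.Helper29.N2
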