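import Pool.Agent.Helper29.N2.Link
import Pool.Agent.Helper95.N5.Flat3

/-!
The rotational case with the two principal directions exchanged.
-/

set_option autoImplicit false
noncomputable section
namespace Pool.Agent.Helper29.N2

open Set Filter Topology Metric N4
open scoped ContDiff

/-- exchanging the two directions -/
theorem GD_swap {V : TopologicalSpace.Opens (ℝ × ℝ)} {c : ℝ}
    {a1 a2 b1 b2 p q h w1 w2 a11 a12 a22 b11 b12 b22 : SF V}
    (G : GD V c a1 a2 b1 b2 p q h w1 w2 a11 a12 a22 b11 b12 b22) :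
    GD V c b1 b2 a1 a2 q p h w2 w1 a22 a12 a11 b22 b12 b11 := by
  refine ⟨?_, ?_, ?_, N5.SE_swap G.se, G.hpos, G.hne⟩
  · have : b1 * a2 - b2 * a1 = -(a1 * b2 - a2 * b1) := by ring
    rw [this]; exact G.du.neg
  · linear_combination -G.br1
  · linear_combination -G.br2

/-- THE OTHER ROTATIONAL CASE IS IMPOSSIBLE -/
theorem rot_false' {V : TopologicalSpace.Opens (ℝ × ℝ)} {c : ℝ}
    {a1 a2 b1 b2 p q h w1 w2 x y : SF V} (hV : (V : Set (ℝ × ℝ)).Nonempty) (hc : c ≠ 0)
    (G : GD V c a1 a2 b1 b2 p q h w1 w2 (h * (1 + x)) 0 (h * (1 - x)) (h * y) 0 (-(h * y)))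
    (yu : IsUnit y) (h20 : (b1 • Pu V + b2 • Pv V) h = 0) : False := by
  have G2 := GD_swap G
  have e1 : h * (1 - x) = h * (1 + -x) := by ring
  have e2 : h * (1 + x) = h * (1 - -x) := by ring
  have e3 : -(h * y) = h * -y := by ring
  have e4 : h * y = -(h * -y) := by ring
  rw [e1, e2, e3, e4] at G2
  refine rot_false hV hc G2 yu.neg h20

end Pool.Agent.Helper29.N2
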