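import Pool.Agent.Helper29.N2.Ext

/-!
Polynomial vector fields: a polynomial constraint which holds along a local solution holds along
every solution with the same initial value (Hilbert's basis theorem and a linear equation).
-/

set_option autoImplicit false
noncomputable section
namespace Pool.Agent.Helper29.N2

open Set Filter Topology Metric MvPolynomial

variable {N : ℕ}

/-- the vector field of a family of polynomials -/
def vf (P : Fin N → MvPolynomial (Fin N) ℝ) (u : Fin N → ℝ) : Fin N → ℝ := fun i => eval u (P i)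

theorem contDiff_evalp (p : MvPolynomial (Fin N) ℝ) :
    ContDiff ℝ 1 (fun u : Fin N → ℝ => eval u p) := by
  induction p using MvPolynomial.induction_on with
  | C a => simp only [eval_C]; exact contDiff_const
  | add p q hp hq => simp only [map_add]; exact hp.add hq
  | mul_X p i hp => simp only [map_mul, eval_X]; exact hp.mul (contDiff_apply ℝ ℝ i)

theorem contDiff_vf (P : Fin N → MvPolynomial (Fin N) ℝ) : ContDiff ℝ 1 (vf P) :=
  contDiff_pi.2 fun i => contDiff_evalp (P i)

/-- the derivation of the vector field -/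
def lieD (P : Fin N → MvPolynomial (Fin N) ℝ) :
    Derivation ℝ (MvPolynomial (Fin N) ℝ) (MvPolynomial (Fin N) ℝ) := mkDerivation ℝ P

theorem hasDerivAt_evalp {P : Fin N → MvPolynomial (Fin N) ℝ} {γ : ℝ → Fin N → ℝ} {t : ℝ}
    (h : HasDerivAt γ (vf P (γ t)) t) (p : MvPolynomial (Fin N) ℝ) :
    HasDerivAt (fun t => eval (γ t) p) (eval (γ t) (lieD P p)) t := by
  induction p using MvPolynomial.induction_on with
  | C a =>
    have e : lieD P (C a) = 0 := by
      exact (lieD P).map_algebraMap a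
    rw [e]
    simp only [eval_C, map_zero]
    exact hasDerivAt_const _ _
  | add p q hp hq => simp only [map_add]; exact hp.add hq
  | mul_X p i hp =>
    have hi : HasDerivAt (fun t => γ t i) (eval (γ t) (P i)) t := (hasDerivAt_pi.1 h) i
    have e : lieD P (p * X i) = p * P i + X i * lieD P p := by
      rw [Derivation.leibniz]
      unfold lieD
      rw [mkDerivation_X]
      rfl
    rw [e]
    simp only [map_mul, eval_X, map_add]
    refine (hp.mul hi).congr_deriv ?_
    ring

theorem local_derivs {P : Fin N → MvPolynomial (Fin N) ℝ} {γ : ℝ → Fin N → ℝ} {a b : ℝ}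
    (hγ : SolOn (vf P) γ a b) (k : ℕ) : ∀ G : MvPolynomial (Fin N) ℝ,
    (∀ t ∈ Ioo a b, eval (γ t) G = 0) → ∀ t ∈ Ioo a b, eval (γ t) ((lieD P)^[k] G) = 0 := by
  induction k with
  | zero => intro G h t ht; exact h t ht
  | succ k ih =>
    intro G h
    rw [Function.iterate_succ_apply]
    refine ih _ fun t ht => ?_
    have h1 := hasDerivAt_evalp (hγ t ht) G
    have h2 : (fun t => eval (γ t) G) =ᶠ[𝓝 t] fun _ => 0 := by
      filter_upwards [isOpen_Ioo.mem_nhds ht] with x hx using h x hx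
    exact (h1.congr_of_eventuallyEq h2.symm).unique (hasDerivAt_const t 0)

/-- the iterated derivatives of a polynomial satisfy a linear relation -/
theorem noeth_rel (P : Fin N → MvPolynomial (Fin N) ℝ) (G : MvPolynomial (Fin N) ℝ) :
    ∃ (n : ℕ) (q : Fin n → MvPolynomial (Fin N) ℝ),
      (lieD P)^[n] G = ∑ i, q i * (lieD P)^[(i : ℕ)] G := by
  set g : ℕ → MvPolynomial (Fin N) ℝ := fun k => (lieD P)^[k] G with hg
  set I : ℕ →o Submodule (MvPolynomial (Fin N) ℝ) (MvPolynomial (Fin N) ℝ) :=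
    ⟨fun k => Submodule.span _ (g '' {j | j < k}), fun k l hkl =>
      Submodule.span_mono (image_mono fun j (hj : j < k) => hj.trans_le hkl)⟩ with hI
  obtain ⟨n, hn⟩ := monotone_stabilizes_iff_noetherian.2
    (inferInstance : IsNoetherian (MvPolynomial (Fin N) ℝ) (MvPolynomial (Fin N) ℝ)) I
  have h1 : g n ∈ I n := by
    rw [hn (n + 1) (Nat.le_succ n)]
    exact Submodule.subset_span ⟨n, Nat.lt_succ_self n, rfl⟩
  have h2 : g '' {j | j < n} = range (fun i : Fin n => g i) := by
    ext x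
    constructor
    · rintro ⟨j, hj, rfl⟩; exact ⟨⟨j, hj⟩, rfl⟩
    · rintro ⟨i, rfl⟩; exact ⟨i, i.2, rfl⟩
  have h3 : g n ∈ Submodule.span (MvPolynomial (Fin N) ℝ) (range (fun i : Fin n => g i)) := by
    rw [← h2]; exact h1
  obtain ⟨c, hc⟩ := (Submodule.mem_span_range_iff_exists_fun _).1 h3
  refine ⟨n, c, ?_⟩
  rw [← hg] at *
  exact hc.symm

theorem lin_zero {n : ℕ} {y y' : ℝ → Fin n → ℝ} {b : ℝ} {κ : ℝ → ℝ}
    (hy : ∀ t ∈ Ico 0 b, HasDerivAt y (y' t) t) (hκ : ContinuousOn κ (Ico 0 b))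
    (hb : ∀ t ∈ Ico 0 b, ‖y' t‖ ≤ κ t * ‖y t‖) (h0 : y 0 = 0) : ∀ t ∈ Ico 0 b, y t = 0 := by
  intro t ht
  have hsub : Icc 0 t ⊆ Ico 0 b := fun x hx => ⟨hx.1, hx.2.trans_lt ht.2⟩
  obtain ⟨M, hM⟩ := (isCompact_Icc (a := (0 : ℝ)) (b := t)).exists_bound_of_continuousOn
    (hκ.mono hsub)
  refine eq_zero_of_abs_deriv_le_mul_abs_self_of_eq_zero_right (f := y) (f' := y') (K := M)
    (a := 0) (b := t) (fun x hx => (hy x (hsub hx)).continuousAt.continuousWithinAt)
    (fun x hx => (hy x (hsub ⟨hx.1, hx.2.le⟩)).hasDerivWithinAt) h0 (fun x hx => ?_) t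
    ⟨ht.1, le_rfl⟩
  have hx' : x ∈ Icc 0 t := ⟨hx.1, hx.2.le⟩
  refine (hb x (hsub hx')).trans (mul_le_mul_of_nonneg_right ?_ (norm_nonneg _))
  exact (le_abs_self _).trans (hM x hx')

/-- THE CONSTRAINT IS KEPT -/
theorem constraint_zero {P : Fin N → MvPolynomial (Fin N) ℝ} {G : MvPolynomial (Fin N) ℝ}
    {γ : ℝ → Fin N → ℝ} {T : ℝ} (hγ : SolOn (vf P) γ (-T) T)
    (hz : ∀ k, eval (γ 0) ((lieD P)^[k] G) = 0) : ∀ t ∈ Ioo (-T) T, eval (γ t) G = 0 := by
  obtain ⟨n, q, hq⟩ := noeth_rel P G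
  rcases Nat.eq_zero_or_pos n with hn | hn
  · subst hn
    have : G = 0 := by simpa using hq
    intro t _
    rw [this, map_zero]
  set y : ℝ → Fin n → ℝ := fun t i => eval (γ t) ((lieD P)^[(i : ℕ)] G) with hyd
  set y' : ℝ → Fin n → ℝ := fun t i => eval (γ t) ((lieD P)^[(i : ℕ) + 1] G) with hy'd
  set κ : ℝ → ℝ := fun t => 1 + ∑ i, |eval (γ t) (q i)| with hκd
  have hy : ∀ t ∈ Ioo (-T) T, HasDerivAt y (y' t) t := by
    intro t ht
    refine hasDerivAt_pi.2 fun i => ?_
    have := hasDerivAt_evalp (hγ t ht) ((lieD P)^[(i : ℕ)] G)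
    rw [← Function.iterate_succ_apply' (lieD P)] at this
    exact this
  have hc : ContinuousOn γ (Ioo (-T) T) := fun t ht => (hγ t ht).continuousAt.continuousWithinAt
  have hκ : ContinuousOn κ (Ioo (-T) T) := by
    refine continuousOn_const.add (continuousOn_finsetSum _ fun i _ => ?_)
    exact ((contDiff_evalp (q i)).continuous.comp_continuousOn hc).abs
  have hb : ∀ t, ‖y' t‖ ≤ κ t * ‖y t‖ := by
    intro t
    have h1 : 0 ≤ ∑ i, |eval (γ t) (q i)| := Finset.sum_nonneg fun i _ => abs_nonneg _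
    refine (pi_norm_le_iff_of_nonneg (mul_nonneg (by simp only [hκd]; linarith)
      (norm_nonneg _))).2 fun i => ?_
    rcases lt_or_eq_of_le (Nat.succ_le_of_lt i.2) with hi | hi
    · have e : y' t i = y t ⟨(i : ℕ) + 1, hi⟩ := rfl
      rw [e]
      have h2 := norm_le_pi_norm (y t) ⟨(i : ℕ) + 1, hi⟩
      have h3 : ‖y t‖ ≤ κ t * ‖y t‖ := by
        have : 1 ≤ κ t := by simp only [hκd]; linarith
        nlinarith [norm_nonneg (y t)]
      exact h2.trans h3
    · have e : y' t i = ∑ j, eval (γ t) (q j) * y t j := by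
        have hi' : (i : ℕ) + 1 = n := hi
        simp only [hy'd, hyd]
        rw [hi', hq, map_sum]
        exact Finset.sum_congr rfl fun j _ => map_mul _ _ _
      rw [e]
      refine (norm_sum_le _ _).trans ?_
      have h2 : ∀ j ∈ Finset.univ, ‖eval (γ t) (q j) * y t j‖ ≤ |eval (γ t) (q j)| * ‖y t‖ := by
        intro j _
        rw [norm_mul]
        exact mul_le_mul_of_nonneg_left (norm_le_pi_norm (y t) j) (norm_nonneg _)
      refine (Finset.sum_le_sum h2).trans ?_
      rw [← Finset.sum_mul]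
      refine mul_le_mul_of_nonneg_right ?_ (norm_nonneg _)
      simp only [hκd]; linarith
  have h0 : y 0 = 0 := by
    ext i; exact hz i
  have hfwd : ∀ t ∈ Ico 0 T, y t = 0 := by
    refine lin_zero (κ := κ) (fun t ht => hy t ⟨?_, ht.2⟩) (hκ.mono ?_) (fun t _ => hb t) h0
    · have := ht.1.trans_lt ht.2
      linarith [ht.1]
    · intro t ht
      have := ht.1.trans_lt ht.2
      exact ⟨by linarith [ht.1], ht.2⟩
  have hbwd : ∀ t ∈ Ico 0 T, y (-t) = 0 := by
    have hm : ∀ t ∈ Ico 0 T, -t ∈ Ioo (-T) T := by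
      intro t ht
      have := ht.1.trans_lt ht.2
      exact ⟨by linarith [ht.2], by linarith [ht.1]⟩
    refine lin_zero (y := fun t => y (-t)) (y' := fun t => -y' (-t)) (κ := fun t => κ (-t))
      (fun t ht => ?_) ?_ (fun t _ => ?_) (by rw [neg_zero]; exact h0)
    · have := (hy (-t) (hm t ht)).scomp t (hasDerivAt_neg t)
      refine HasDerivAt.congr_deriv (f := fun t => y (-t)) this ?_
      rw [neg_smul, one_smul]
    · exact hκ.comp continuous_neg.continuousOn hm
    · rw [norm_neg]; exact hb (-t)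
  intro t ht
  have hyt : y t = 0 := by
    rcases le_total 0 t with h | h
    · exact hfwd t ⟨h, ht.2⟩
    · have := hbwd (-t) ⟨by linarith, by linarith [ht.1]⟩
      rwa [neg_neg] at this
  exact congrFun hyt ⟨0, hn⟩

end Pool.Agent.Helper29.N2
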