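import Pool.Agent.Helper29.N2.PolyODE
import Pool.Agent.Helper29.N2.Grow2

/-!
Rotational null 2-type surfaces: from a local solution to a solution on the whole line, and the
dichotomy `B = c a` or `B = 0`.
-/

set_option autoImplicit false
noncomputable section
namespace Pool.Agent.Helper29.N2

open Set Filter Topology Metric MvPolynomial

/-- exponential bounds -/
theorem exp_bound {E E' : ℝ → ℝ} {K T : ℝ} (hE : ∀ t ∈ Ioo (-T) T, HasDerivAt E (E' t) t)
    (hb : ∀ t ∈ Ioo (-T) T, |E' t| ≤ K * E t) : ∀ t ∈ Ioo (-T) T,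
    E t ≤ Real.exp (K * |t|) * E 0 ∧ E 0 ≤ Real.exp (K * |t|) * E t := by
  have d1 : ∀ t ∈ Ioo (-T) T, HasDerivAt (fun t => Real.exp (K * t) * E t)
      (Real.exp (K * t) * (E' t + K * E t)) t := by
    intro t ht
    have := (((hasDerivAt_id t).const_mul K).exp).mul (hE t ht)
    refine HasDerivAt.congr_deriv (f := fun t => Real.exp (K * t) * E t) this ?_
    simp only [id, mul_one]; ring
  have d2 : ∀ t ∈ Ioo (-T) T, HasDerivAt (fun t => Real.exp (-K * t) * E t)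
      (Real.exp (-K * t) * (E' t - K * E t)) t := by
    intro t ht
    have := (((hasDerivAt_id t).const_mul (-K)).exp).mul (hE t ht)
    refine HasDerivAt.congr_deriv (f := fun t => Real.exp (-K * t) * E t) this ?_
    simp only [id, mul_one]; ring
  have m1 : MonotoneOn (fun t => Real.exp (K * t) * E t) (Ioo (-T) T) := by
    refine monotoneOn_of_deriv_nonneg (convex_Ioo _ _)
      (fun x hx => (d1 x hx).continuousAt.continuousWithinAt)
      (fun x hx => (d1 x (interior_subset hx)).differentiableAt.differentiableWithinAt) ?_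
    intro x hx
    have hx' := interior_subset hx
    rw [(d1 x hx').deriv]
    have := (abs_le.1 (hb x hx')).1
    exact mul_nonneg (Real.exp_pos _).le (by linarith)
  have m2 : AntitoneOn (fun t => Real.exp (-K * t) * E t) (Ioo (-T) T) := by
    refine antitoneOn_of_deriv_nonpos (convex_Ioo _ _)
      (fun x hx => (d2 x hx).continuousAt.continuousWithinAt)
      (fun x hx => (d2 x (interior_subset hx)).differentiableAt.differentiableWithinAt) ?_
    intro x hx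
    have hx' := interior_subset hx
    rw [(d2 x hx').deriv]
    have := (abs_le.1 (hb x hx')).2
    exact mul_nonpos_of_nonneg_of_nonpos (Real.exp_pos _).le (by linarith)
  intro t ht
  have h0 : (0 : ℝ) ∈ Ioo (-T) T := by
    have := ht.1.trans ht.2
    exact ⟨by linarith, by linarith⟩
  have ee : Real.exp (K * t) * Real.exp (-K * t) = 1 := by
    rw [← Real.exp_add]; simp
  rcases le_total 0 t with h | h
  · have h1 := m1 h0 ht h
    have h2 := m2 h0 ht h
    simp only [mul_zero, Real.exp_zero, one_mul] at h1 h2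
    rw [abs_of_nonneg h]
    refine ⟨?_, h1⟩
    calc E t = Real.exp (K * t) * (Real.exp (-K * t) * E t) := by
          rw [← mul_assoc, ee, one_mul]
      _ ≤ _ := mul_le_mul_of_nonneg_left h2 (Real.exp_pos _).le
  · have h1 := m1 ht h0 h
    have h2 := m2 ht h0 h
    simp only [mul_zero, Real.exp_zero, one_mul] at h1 h2
    rw [abs_of_nonpos h]
    have e1 : K * -t = -K * t := by ring
    rw [e1]
    refine ⟨?_, h2⟩
    calc E t = Real.exp (-K * t) * (Real.exp (K * t) * E t) := by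
          rw [← mul_assoc, mul_comm (Real.exp (-K * t)), ee, one_mul]
      _ ≤ _ := mul_le_mul_of_nonneg_left h1 (Real.exp_pos _).le

/-- the polynomial vector field; the variables are `a, a', B, B', Φ₁, Φ₂, Φ₁', Φ₂', β₁, β₂` -/
def rotP (c : ℝ) : Fin 10 → MvPolynomial (Fin 10) ℝ :=
  ![X 1, X 0 - X 0 ^ 2 * X 2, X 3, (1 - C c * X 0 ^ 2) * X 2, X 6, X 7,
    -(C c * X 0 ^ 2 * X 4), -(C c * X 0 ^ 2 * X 5), -(X 0 ^ 2 * X 4), -(X 0 ^ 2 * X 5)]

/-- the constraint -/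
def rotG : MvPolynomial (Fin 10) ℝ := X 0 ^ 2 - X 1 ^ 2 - X 8 ^ 2 - X 9 ^ 2

/-- a local solution of the rotational system -/
structure RotL (c α β : ℝ) (a a1 B B1 F1 F2 G1 G2 b1 b2 : ℝ → ℝ) : Prop where
  ha : ∀ t ∈ Ioo α β, HasDerivAt a (a1 t) t
  ha1 : ∀ t ∈ Ioo α β, HasDerivAt a1 (a t - a t ^ 2 * B t) t
  hB : ∀ t ∈ Ioo α β, HasDerivAt B (B1 t) t
  hB1 : ∀ t ∈ Ioo α β, HasDerivAt B1 ((1 - c * a t ^ 2) * B t) t
  hF1 : ∀ t ∈ Ioo α β, HasDerivAt F1 (G1 t) t
  hF2 : ∀ t ∈ Ioo α β, HasDerivAt F2 (G2 t) t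
  hG1 : ∀ t ∈ Ioo α β, HasDerivAt G1 (-(c * a t ^ 2 * F1 t)) t
  hG2 : ∀ t ∈ Ioo α β, HasDerivAt G2 (-(c * a t ^ 2 * F2 t)) t
  hb1 : ∀ t ∈ Ioo α β, HasDerivAt b1 (-(a t ^ 2 * F1 t)) t
  hb2 : ∀ t ∈ Ioo α β, HasDerivAt b2 (-(a t ^ 2 * F2 t)) t
  pos : ∀ t ∈ Ioo α β, 0 < a t
  con : ∀ t ∈ Ioo α β, a t ^ 2 = a1 t ^ 2 + b1 t ^ 2 + b2 t ^ 2

/-- the vector of a family of ten functions -/
def vec10 (a a1 B B1 F1 F2 G1 G2 b1 b2 : ℝ → ℝ) (t : ℝ) : Fin 10 → ℝ :=
  ![a t, a1 t, B t, B1 t, F1 t, F2 t, G1 t, G2 t, b1 t, b2 t]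

theorem RotL.solOn {c α β : ℝ} {a a1 B B1 F1 F2 G1 G2 b1 b2 : ℝ → ℝ}
    (R : RotL c α β a a1 B B1 F1 F2 G1 G2 b1 b2) :
    SolOn (vf (rotP c)) (vec10 a a1 B B1 F1 F2 G1 G2 b1 b2) α β := by
  intro t ht
  refine hasDerivAt_pi.2 fun i => ?_
  fin_cases i
  · exact (R.ha t ht).congr_deriv (by simp [vf, rotP, vec10])
  · exact (R.ha1 t ht).congr_deriv (by simp [vf, rotP, vec10])
  · exact (R.hB t ht).congr_deriv (by simp [vf, rotP, vec10])
  · exact (R.hB1 t ht).congr_deriv (by simp [vf, rotP, vec10])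
  · exact (R.hF1 t ht).congr_deriv (by simp [vf, rotP, vec10])
  · exact (R.hF2 t ht).congr_deriv (by simp [vf, rotP, vec10])
  · exact (R.hG1 t ht).congr_deriv (by simp [vf, rotP, vec10])
  · exact (R.hG2 t ht).congr_deriv (by simp [vf, rotP, vec10])
  · exact (R.hb1 t ht).congr_deriv (by simp [vf, rotP, vec10])
  · exact (R.hb2 t ht).congr_deriv (by simp [vf, rotP, vec10])

/-- a solution of the polynomial equation with the constraint gives back a local solution -/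
theorem rotL_of_solOn {c T : ℝ} {γ : ℝ → Fin 10 → ℝ} (h : SolOn (vf (rotP c)) γ (-T) T)
    (hG : ∀ t ∈ Ioo (-T) T, eval (γ t) rotG = 0) (h0 : 0 < γ 0 0) :
    RotL c (-T) T (fun t => γ t 0) (fun t => γ t 1) (fun t => γ t 2) (fun t => γ t 3)
      (fun t => γ t 4) (fun t => γ t 5) (fun t => γ t 6) (fun t => γ t 7) (fun t => γ t 8)
      (fun t => γ t 9) := by
  have hd : ∀ i, ∀ t ∈ Ioo (-T) T, HasDerivAt (fun t => γ t i) (eval (γ t) (rotP c i)) t :=
    fun i t ht => (hasDerivAt_pi.1 (h t ht)) i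
  have hcon : ∀ t ∈ Ioo (-T) T, γ t 0 ^ 2 = γ t 1 ^ 2 + γ t 8 ^ 2 + γ t 9 ^ 2 := by
    intro t ht
    have := hG t ht
    simp only [rotG, map_sub, map_pow, eval_X] at this
    linarith
  have ha : ∀ t ∈ Ioo (-T) T, HasDerivAt (fun t => γ t 0) (γ t 1) t := fun t ht =>
    (hd 0 t ht).congr_deriv (by simp [rotP])
  refine ⟨ha, fun t ht => (hd 1 t ht).congr_deriv (by simp [rotP]),
    fun t ht => (hd 2 t ht).congr_deriv (by simp [rotP]),
    fun t ht => (hd 3 t ht).congr_deriv (by simp [rotP]),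
    fun t ht => (hd 4 t ht).congr_deriv (by simp [rotP]),
    fun t ht => (hd 5 t ht).congr_deriv (by simp [rotP]),
    fun t ht => (hd 6 t ht).congr_deriv (by simp [rotP]),
    fun t ht => (hd 7 t ht).congr_deriv (by simp [rotP]),
    fun t ht => (hd 8 t ht).congr_deriv (by simp [rotP]),
    fun t ht => (hd 9 t ht).congr_deriv (by simp [rotP]), ?_, hcon⟩
  have hne : ∀ t ∈ Ioo (-T) T, γ t 0 ≠ 0 := by
    intro t ht h00
    have := (exp_bound (E := fun t => γ t 0 * γ t 0) (E' := fun t => γ t 1 * γ t 0 + γ t 0 * γ t 1)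
      (K := 2) (T := T) (fun t ht => (ha t ht).mul (ha t ht)) (fun t ht => ?_) t ht).2
    · simp only [h00, mul_zero] at this
      have : 0 < γ 0 0 * γ 0 0 := by positivity
      linarith
    · have h1 := hcon t ht
      rw [abs_le]
      constructor
      · nlinarith [sq_nonneg (γ t 0 + γ t 1), sq_nonneg (γ t 8), sq_nonneg (γ t 9)]
      · nlinarith [sq_nonneg (γ t 0 - γ t 1), sq_nonneg (γ t 8), sq_nonneg (γ t 9)]
  intro t ht
  by_contra hneg
  push Not at hneg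
  have hT0 : (0 : ℝ) ∈ Ioo (-T) T := by
    have := ht.1.trans ht.2
    exact ⟨by linarith, by linarith⟩
  have hcont : ContinuousOn (fun t => γ t 0) (Ioo (-T) T) := fun t ht =>
    (ha t ht).continuousAt.continuousWithinAt
  obtain ⟨s, hs, hs0⟩ := isPreconnected_Ioo.intermediate_value ht hT0 hcont
    (show (0 : ℝ) ∈ Icc (γ t 0) (γ 0 0) from ⟨hneg, h0.le⟩)
  exact hne s hs hs0

/-- a priori bounds -/
theorem RotL.bound {c T T' : ℝ} {a a1 B B1 F1 F2 G1 G2 b1 b2 : ℝ → ℝ} (hT : T' ≤ T)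
    (R : RotL c (-T') T' a a1 B B1 F1 F2 G1 G2 b1 b2) (t : ℝ) (ht : t ∈ Ioo (-T') T') :
    ‖vec10 a a1 B B1 F1 F2 G1 G2 b1 b2 t‖ ≤ 1 + Real.exp (2 * T) * a 0 ^ 2 +
      Real.exp ((2 + |c| * (Real.exp (2 * T) * a 0 ^ 2)) * T) *
        ((B 0 ^ 2 + B1 0 ^ 2) + (F1 0 ^ 2 + G1 0 ^ 2) + (F2 0 ^ 2 + G2 0 ^ 2)) := by
  set A := Real.exp (2 * T) * a 0 ^ 2 with hA
  set K := 2 + |c| * A with hK
  have hA0 : 0 ≤ A := by positivity
  have hK0 : 0 ≤ K := by positivity
  have habs : |t| ≤ T := by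
    rw [abs_le]; exact ⟨by linarith [ht.1], by linarith [ht.2]⟩
  have ha2 : ∀ t ∈ Ioo (-T') T', a t ^ 2 ≤ A := by
    intro t ht
    have habs : |t| ≤ T := by
      rw [abs_le]; exact ⟨by linarith [ht.1], by linarith [ht.2]⟩
    have := (exp_bound (E := fun t => a t * a t) (E' := fun t => a1 t * a t + a t * a1 t)
      (K := 2) (T := T') (fun t ht => (R.ha t ht).mul (R.ha t ht)) (fun t ht => ?_) t ht).1
    · have h2 : Real.exp (2 * |t|) ≤ Real.exp (2 * T) := Real.exp_le_exp.2 (by linarith)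
      calc a t ^ 2 = a t * a t := sq _
        _ ≤ Real.exp (2 * |t|) * (a 0 * a 0) := this
        _ ≤ Real.exp (2 * T) * (a 0 * a 0) := mul_le_mul_of_nonneg_right h2 (mul_self_nonneg _)
        _ = A := by rw [hA]; ring
    · have h1 := R.con t ht
      rw [abs_le]
      constructor
      · nlinarith [sq_nonneg (a t + a1 t), sq_nonneg (b1 t), sq_nonneg (b2 t)]
      · nlinarith [sq_nonneg (a t - a1 t), sq_nonneg (b1 t), sq_nonneg (b2 t)]
  -- second order equations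
  have hgen : ∀ (x x1 x2 : ℝ → ℝ) (e : ℝ → ℝ), (∀ t ∈ Ioo (-T') T', HasDerivAt x (x1 t) t) →
      (∀ t ∈ Ioo (-T') T', HasDerivAt x1 (x2 t) t) → (∀ t ∈ Ioo (-T') T', x2 t = e t * x t) →
      (∀ t ∈ Ioo (-T') T', |1 + e t| ≤ K) →
      x t ^ 2 + x1 t ^ 2 ≤ Real.exp (K * T) * (x 0 ^ 2 + x1 0 ^ 2) := by
    intro x x1 x2 e hx hx1 hx2 he
    have := (exp_bound (E := fun t => x t * x t + x1 t * x1 t)
      (E' := fun t => (x1 t * x t + x t * x1 t) + (x2 t * x1 t + x1 t * x2 t))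
      (K := K) (T := T') (fun t ht => ((hx t ht).mul (hx t ht)).add ((hx1 t ht).mul (hx1 t ht)))
      (fun t ht => ?_) t ht).1
    · have h2 : Real.exp (K * |t|) ≤ Real.exp (K * T) :=
        Real.exp_le_exp.2 (mul_le_mul_of_nonneg_left habs hK0)
      calc x t ^ 2 + x1 t ^ 2 = x t * x t + x1 t * x1 t := by ring
        _ ≤ Real.exp (K * |t|) * (x 0 * x 0 + x1 0 * x1 0) := this
        _ ≤ Real.exp (K * T) * (x 0 * x 0 + x1 0 * x1 0) :=
          mul_le_mul_of_nonneg_right h2 (add_nonneg (mul_self_nonneg _) (mul_self_nonneg _))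
        _ = _ := by ring
    · have e1 : (x1 t * x t + x t * x1 t) + (x2 t * x1 t + x1 t * x2 t) =
          (1 + e t) * (2 * x t * x1 t) := by rw [hx2 t ht]; ring
      rw [e1, abs_mul]
      have h2 : |2 * x t * x1 t| ≤ x t * x t + x1 t * x1 t := by
        rw [abs_le]
        constructor
        · nlinarith [sq_nonneg (x t + x1 t)]
        · nlinarith [sq_nonneg (x t - x1 t)]
      exact mul_le_mul (he t ht) h2 (abs_nonneg _) hK0
  have hca : ∀ t ∈ Ioo (-T') T', |c * a t ^ 2| ≤ |c| * A := by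
    intro t ht
    rw [abs_mul, abs_of_nonneg (sq_nonneg (a t))]
    exact mul_le_mul_of_nonneg_left (ha2 t ht) (abs_nonneg c)
  have hBb := hgen B B1 _ (fun t => 1 - c * a t ^ 2) R.hB R.hB1 (fun t _ => rfl) (by
    intro t ht
    have := abs_le.1 (hca t ht)
    rw [abs_le]; constructor <;> simp only [hK] <;> linarith [this.1, this.2])
  have hFb := hgen F1 G1 _ (fun t => -(c * a t ^ 2)) R.hF1 R.hG1 (fun t _ => by ring) (by
    intro t ht
    have := abs_le.1 (hca t ht)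
    rw [abs_le]; constructor <;> simp only [hK] <;> linarith [this.1, this.2])
  have hHb := hgen F2 G2 _ (fun t => -(c * a t ^ 2)) R.hF2 R.hG2 (fun t _ => by ring) (by
    intro t ht
    have := abs_le.1 (hca t ht)
    rw [abs_le]; constructor <;> simp only [hK] <;> linarith [this.1, this.2])
  set X := Real.exp (K * T) with hX
  have hX0 : 0 < X := Real.exp_pos _
  have p1 : 0 ≤ X * (B 0 ^ 2 + B1 0 ^ 2) := by positivity
  have p2 : 0 ≤ X * (F1 0 ^ 2 + G1 0 ^ 2) := by positivity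
  have p3 : 0 ≤ X * (F2 0 ^ 2 + G2 0 ^ 2) := by positivity
  have hat := ha2 t ht
  have hcon := R.con t ht
  have hsq : ∀ x : ℝ, x ^ 2 ≤ A + X * ((B 0 ^ 2 + B1 0 ^ 2) + (F1 0 ^ 2 + G1 0 ^ 2) +
      (F2 0 ^ 2 + G2 0 ^ 2)) → |x| ≤ 1 + A + X * ((B 0 ^ 2 + B1 0 ^ 2) + (F1 0 ^ 2 + G1 0 ^ 2) +
      (F2 0 ^ 2 + G2 0 ^ 2)) := by
    intro x hx
    have : |x| ≤ 1 + x ^ 2 := by
      have := sq_abs x
      nlinarith [sq_nonneg (|x| - 1)]
    linarith
  have s1 := sq_nonneg (a1 t)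
  have s2 := sq_nonneg (b1 t)
  have s3 := sq_nonneg (b2 t)
  have s4 := sq_nonneg (B t)
  have s5 := sq_nonneg (B1 t)
  have s6 := sq_nonneg (F1 t)
  have s7 := sq_nonneg (G1 t)
  have s8 := sq_nonneg (F2 t)
  have s9 := sq_nonneg (G2 t)
  rw [mul_add, mul_add] at hsq ⊢
  refine (pi_norm_le_iff_of_nonneg (by linarith)).2 fun i => ?_
  rw [Real.norm_eq_abs]
  fin_cases i
  · exact hsq (a t) (by linarith)
  · exact hsq (a1 t) (by linarith)
  · exact hsq (B t) (by linarith)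
  · exact hsq (B1 t) (by linarith)
  · exact hsq (F1 t) (by linarith)
  · exact hsq (F2 t) (by linarith)
  · exact hsq (G1 t) (by linarith)
  · exact hsq (G2 t) (by linarith)
  · exact hsq (b1 t) (by linarith)
  · exact hsq (b2 t) (by linarith)

theorem vec10_eta (γ : ℝ → Fin 10 → ℝ) (t : ℝ) :
    vec10 (fun t => γ t 0) (fun t => γ t 1) (fun t => γ t 2) (fun t => γ t 3)
      (fun t => γ t 4) (fun t => γ t 5) (fun t => γ t 6) (fun t => γ t 7) (fun t => γ t 8)
      (fun t => γ t 9) t = γ t := by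
  ext i; fin_cases i <;> rfl

/-- the local solution extends to the whole line -/
theorem rot_global {c δ : ℝ} {a a1 B B1 F1 F2 G1 G2 b1 b2 : ℝ → ℝ} (hδ : 0 < δ)
    (R : RotL c (-δ) δ a a1 B B1 F1 F2 G1 G2 b1 b2) :
    ∃ γ : ℝ → Fin 10 → ℝ, (∀ t ∈ Ioo (-δ) δ, γ t = vec10 a a1 B B1 F1 F2 G1 G2 b1 b2 t) ∧
      ∀ T, RotL c (-T) T (fun t => γ t 0) (fun t => γ t 1) (fun t => γ t 2) (fun t => γ t 3)
      (fun t => γ t 4) (fun t => γ t 5) (fun t => γ t 6) (fun t => γ t 7) (fun t => γ t 8)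
      (fun t => γ t 9) := by
  set u := vec10 a a1 B B1 F1 F2 G1 G2 b1 b2 with hu
  have h0 : (0 : ℝ) ∈ Ioo (-δ) δ := ⟨by linarith, hδ⟩
  have hsol := R.solOn
  have hG : ∀ t ∈ Ioo (-δ) δ, eval (u t) rotG = 0 := by
    intro t ht
    have h1 := R.con t ht
    have : eval (u t) rotG = a t ^ 2 - a1 t ^ 2 - b1 t ^ 2 - b2 t ^ 2 := by
      simp [rotG, hu, vec10]
    rw [this]; linarith
  have hz : ∀ k, eval (u 0) ((lieD (rotP c))^[k] rotG) = 0 := fun k =>
    local_derivs hsol k rotG hG 0 h0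
  have hu0 : 0 < u 0 0 := R.pos 0 h0
  have hkey : ∀ γ : ℝ → Fin 10 → ℝ, γ 0 = u 0 → ∀ T, SolOn (vf (rotP c)) γ (-T) T →
      RotL c (-T) T (fun t => γ t 0) (fun t => γ t 1) (fun t => γ t 2) (fun t => γ t 3)
      (fun t => γ t 4) (fun t => γ t 5) (fun t => γ t 6) (fun t => γ t 7) (fun t => γ t 8)
      (fun t => γ t 9) := by
    intro γ hγ0 T hγ
    refine rotL_of_solOn hγ (constraint_zero hγ ?_) ?_
    · rw [hγ0]; exact hz
    · rw [hγ0]; exact hu0
  obtain ⟨γ, hγ0, hγ⟩ := exists_global (contDiff_vf (rotP c)) (u 0) (by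
    intro T
    refine ⟨1 + Real.exp (2 * T) * u 0 0 ^ 2 +
      Real.exp ((2 + |c| * (Real.exp (2 * T) * u 0 0 ^ 2)) * T) *
        ((u 0 2 ^ 2 + u 0 3 ^ 2) + (u 0 4 ^ 2 + u 0 6 ^ 2) + (u 0 5 ^ 2 + u 0 7 ^ 2)), ?_⟩
    intro T' hT' hTT γ hγ0 hγ t ht
    have := (hkey γ hγ0 T' hγ).bound hTT t ht
    rw [vec10_eta] at this
    rw [← hγ0]
    exact this)
  refine ⟨γ, ?_, fun T => hkey γ hγ0 T fun t _ => hγ t⟩
  exact SolOn.eqOn (contDiff_vf (rotP c)) (fun t _ => hγ t) hsol h0 hγ0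

/-- functions with `y' = y` -/
theorem exp_unique {y : ℝ → ℝ} (s : ℝ) (h : ∀ t, HasDerivAt y (s * y t) t) (t : ℝ) :
    y t = y 0 * Real.exp (s * t) := by
  have h1 : ∀ t, HasDerivAt (fun t => Real.exp (-s * t) * y t) 0 t := by
    intro t
    have := (((hasDerivAt_id t).const_mul (-s)).exp).mul (h t)
    refine HasDerivAt.congr_deriv (f := fun t => Real.exp (-s * t) * y t) this ?_
    simp only [id, mul_one]; ring
  have h2 := is_const_of_deriv_eq_zero (fun t => (h1 t).differentiableAt)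
    (fun t => (h1 t).deriv) t 0
  simp only [mul_zero, Real.exp_zero, one_mul] at h2
  have ee : Real.exp (s * t) * Real.exp (-s * t) = 1 := by
    rw [← Real.exp_add]; simp
  rw [← h2]
  linear_combination (-y t) * ee

/-- THE ROTATIONAL DICHOTOMY -/
theorem rot_main {c α β : ℝ} {a a1 B B1 F1 F2 G1 G2 b1 b2 : ℝ → ℝ} (hc : c ≠ 0)
    (R : RotL c α β a a1 B B1 F1 F2 G1 G2 b1 b2) :
    (∀ t ∈ Ioo α β, B t = c * a t) ∨ (∀ t ∈ Ioo α β, B t = 0) := by
  rcases le_or_gt β α with hαβ | hαβ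
  · left
    intro t ht
    exact absurd (ht.1.trans ht.2) (not_lt.2 hαβ)
  set t0 := (α + β) / 2 with ht0
  set δ := (β - α) / 2 with hδ
  have hδ0 : 0 < δ := by rw [hδ]; linarith
  have hsh : ∀ t ∈ Ioo (-δ) δ, t + t0 ∈ Ioo α β := by
    intro t ht
    have h1 := ht.1
    have h2 := ht.2
    exact ⟨by linarith, by linarith⟩
  have hd : ∀ {f g : ℝ → ℝ}, (∀ t ∈ Ioo α β, HasDerivAt f (g t) t) →
      ∀ t ∈ Ioo (-δ) δ, HasDerivAt (fun t => f (t + t0)) (g (t + t0)) t := by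
    intro f g h t ht
    exact (h (t + t0) (hsh t ht)).comp_add_const t t0
  have R' : RotL c (-δ) δ (fun t => a (t + t0)) (fun t => a1 (t + t0)) (fun t => B (t + t0))
      (fun t => B1 (t + t0)) (fun t => F1 (t + t0)) (fun t => F2 (t + t0)) (fun t => G1 (t + t0))
      (fun t => G2 (t + t0)) (fun t => b1 (t + t0)) (fun t => b2 (t + t0)) :=
    ⟨hd R.ha, hd R.ha1, hd R.hB, hd R.hB1, hd R.hF1, hd R.hF2, hd R.hG1, hd R.hG2, hd R.hb1,
      hd R.hb2, fun t ht => R.pos _ (hsh t ht), fun t ht => R.con _ (hsh t ht)⟩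
  obtain ⟨γ, hγe, hγ⟩ := rot_global hδ0 R'
  have hin : ∀ t : ℝ, t ∈ Ioo (-(|t| + 1)) (|t| + 1) := fun t =>
    abs_lt.1 (by linarith)
  set h : ℝ → ℝ := fun t => γ t 0 - γ t 2 / c with hh
  set k : ℝ → ℝ := fun t => γ t 1 - γ t 3 / c with hk
  have dh : ∀ t, HasDerivAt h (k t) t := fun t =>
    ((hγ (|t| + 1)).ha t (hin t)).sub (((hγ (|t| + 1)).hB t (hin t)).div_const c)
  have dk : ∀ t, HasDerivAt k (h t) t := by
    intro t
    have := ((hγ (|t| + 1)).ha1 t (hin t)).sub (((hγ (|t| + 1)).hB1 t (hin t)).div_const c)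
    refine HasDerivAt.congr_deriv (f := k) this ?_
    simp only [hh]
    field_simp
    ring
  have e1 := exp_unique (y := fun t => h t + k t) 1 (fun t =>
    ((dh t).add (dk t)).congr_deriv (by ring))
  have e2 := exp_unique (y := fun t => h t - k t) (-1) (fun t =>
    ((dh t).sub (dk t)).congr_deriv (by ring))
  set m := (h 0 + k 0) / 2 with hm
  set n := (h 0 - k 0) / 2 with hn
  have hht : ∀ t, h t = m * Real.exp t + n * Real.exp (-t) := by
    intro t
    have h1 := e1 t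
    have h2 := e2 t
    simp only [one_mul, neg_mul] at h1 h2
    rw [hm, hn]
    linear_combination h1 / 2 + h2 / 2
  have hBt : ∀ t, γ t 2 = c * (γ t 0 - (m * Real.exp t + n * Real.exp (-t))) := by
    intro t
    rw [← hht t]
    simp only [hh]
    field_simp
    ring
  have S : Sol c m n (fun t => γ t 0) (fun t => γ t 1) := by
    refine ⟨fun t => (hγ (|t| + 1)).ha t (hin t), fun t => ?_,
      fun t => (hγ (|t| + 1)).pos t (hin t), fun t => ?_⟩
    · refine ((hγ (|t| + 1)).ha1 t (hin t)).congr_deriv ?_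
      rw [hBt t]; ring
    · have h1 := (hγ (|t| + 1)).con t (hin t)
      have h2 := (hγ (|t| + 1)).pos t (hin t)
      refine abs_le_of_sq_le_sq ?_ h2.le
      nlinarith [sq_nonneg (γ t 8), sq_nonneg (γ t 9)]
  have hback : ∀ t ∈ Ioo α β, t - t0 ∈ Ioo (-δ) δ := by
    intro t ht
    have h1 := ht.1
    have h2 := ht.2
    exact ⟨by linarith, by linarith⟩
  have ea : ∀ t ∈ Ioo α β, a t = γ (t - t0) 0 := by
    intro t ht
    have := congrFun (hγe (t - t0) (hback t ht)) 0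
    rw [this]
    simp [vec10]
  have eB : ∀ t ∈ Ioo α β, B t = γ (t - t0) 2 := by
    intro t ht
    have := congrFun (hγe (t - t0) (hback t ht)) 2
    rw [this]
    simp [vec10]
  rcases rot_growth hc S with ⟨h1, h2⟩ | h1
  · left
    intro t ht
    rw [eB t ht, ea t ht, hBt, h1, h2]
    ring
  · right
    intro t ht
    rw [eB t ht, hBt, ← h1 (t - t0)]
    ring

end Pool.Agent.Helper29.N2

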