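import Pool.Agent.Helper29.N2.RotS

/-!
Rotational null 2-type surfaces with flat normal bundle: the two end cases and the contradiction.
-/

set_option autoImplicit false
noncomputable section
namespace Pool.Agent.Helper29.N2

open Set Filter Topology Metric

theorem dzero {α β k : ℝ} {f f' : ℝ → ℝ} (hd : ∀ t ∈ Ioo α β, HasDerivAt f (f' t) t)
    (hf : ∀ t ∈ Ioo α β, f t = k) : ∀ t ∈ Ioo α β, f' t = 0 := by
  intro t ht
  have h2 : f =ᶠ[𝓝 t] fun _ => k := by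
    filter_upwards [isOpen_Ioo.mem_nhds ht] with x hx using hf x hx
  exact ((hd t ht).congr_of_eventuallyEq h2.symm).unique (hasDerivAt_const t k)

section
variable {c α β : ℝ} {h x y b p E a : ℝ → ℝ}

/-- first end case -/
theorem RS.end1 (R : RS c α β h x y b p E a) (hx : ∀ t ∈ Ioo α β, x t = -1) :
    ∀ t ∈ Ioo α β, False := by
  -- the coefficient `p`
  have e1 : ∀ t ∈ Ioo α β, 2 * p t = 3 * b t * y t := by
    intro t ht
    have h1 := dzero R.dx hx t ht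
    have h2 := R.a0 t ht
    rw [hx t ht] at h1
    rcases mul_eq_zero.1 h1 with h3 | h3
    · exact absurd h3 h2.ne'
    · linear_combination -h3
  have e2 : ∀ t ∈ Ioo α β, 6 * E t = -(3 * b t ^ 2 * y t) - 4 * h t ^ 2 * y t := by
    intro t ht
    have h1 := R.r2 t ht
    rw [hx t ht] at h1
    linear_combination 2 * h1 + b t * e1 t ht
  have e3 : ∀ t ∈ Ioo α β, 3 * b t ^ 2 * y t ^ 2 - 2 * h t ^ 2 * y t ^ 2 - 27 * b t ^ 2 -
      12 * h t ^ 2 = 3 * c := by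
    intro t ht
    have h1 := R.r1 t ht
    rw [hx t ht] at h1
    linear_combination (-3) * h1 - (y t / 2) * e2 t ht - (3 * y t * b t / 2) * e1 t ht
  have dY : ∀ t ∈ Ioo α β, HasDerivAt y (a t * (2 * b t * y t ^ 2)) t := by
    intro t ht
    refine (R.dy t ht).congr_deriv ?_
    rw [hx t ht]
    linear_combination (a t * y t) * e1 t ht
  have e4 : ∀ t ∈ Ioo α β, 9 * b t ^ 2 * y t ^ 2 + 27 * b t ^ 2 - 16 * h t ^ 2 * y t ^ 2 +
      12 * h t ^ 2 = 0 := by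
    intro t ht
    have d := dzero (fun t ht => (((((R.db t ht).pow 2).const_mul 3).mul ((dY t ht).pow 2)).sub
      ((((R.dh t ht).pow 2).const_mul 2).mul ((dY t ht).pow 2))).sub
      (((R.db t ht).pow 2).const_mul 27) |>.sub (((R.dh t ht).pow 2).const_mul 12)) e3 t ht
    simp only [Pi.pow_apply] at d
    push_cast at d
    have ha := (R.a0 t ht).ne'
    have hb := R.b0 t ht
    have hy := R.y0 t ht
    have hk : a t * b t * y t * (9 * b t ^ 2 * y t ^ 2 + 27 * b t ^ 2 - 16 * h t ^ 2 * y t ^ 2 +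
        12 * h t ^ 2) = 0 := by
      linear_combination d - (a t * b t * (y t ^ 2 - 9)) * e2 t ht
    exact (mul_eq_zero.1 hk).resolve_left (mul_ne_zero (mul_ne_zero ha hb) hy)
  intro t ht
  have d := dzero (fun t ht => ((((((R.db t ht).pow 2).const_mul 9).mul ((dY t ht).pow 2)).add
      (((R.db t ht).pow 2).const_mul 27)).sub
      ((((R.dh t ht).pow 2).const_mul 16).mul ((dY t ht).pow 2))).add
      (((R.dh t ht).pow 2).const_mul 12)) e4 t ht
  simp only [Pi.pow_apply] at d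
  push_cast at d
  have ha := (R.a0 t ht).ne'
  have hb := R.b0 t ht
  have hy := R.y0 t ht
  have hk : a t * b t * y t * (27 * b t ^ 2 * y t ^ 2 - 27 * b t ^ 2 - 108 * h t ^ 2 * y t ^ 2 -
      12 * h t ^ 2) = 0 := by
    linear_combination d - (3 * a t * b t * (y t ^ 2 + 3)) * e2 t ht
  have h1 := (mul_eq_zero.1 hk).resolve_left (mul_ne_zero (mul_ne_zero ha hb) hy)
  have h2 := e4 t ht
  have h3 : 108 * b t ^ 2 + 60 * h t ^ 2 * y t ^ 2 + 48 * h t ^ 2 = 0 := by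
    linear_combination 3 * h2 - h1
  have h4 : 0 < b t ^ 2 := by positivity
  have h5 : 0 ≤ h t ^ 2 * y t ^ 2 := by positivity
  have h6 : 0 ≤ h t ^ 2 := by positivity
  linarith

/-- the algebra of the second end case: the relation between `b²` and `h²` -/
theorem alg_rel {h x y b p E c : ℝ} (s1 : c = -(2 * h ^ 2 * (1 + x))) (s2 : 3 * b * y + 2 * p * x = 0)
    (r1 : c = y * (E + b * p) + 3 * x * b ^ 2 - 2 * h ^ 2 * x ^ 2 - 6 * b ^ 2 - 2 * h ^ 2)
    (r2 : (2 - x) * E = (2 + x) * b * p + y * (2 * h ^ 2 * x - 3 * b ^ 2)) :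
    2 * x * y * E = 3 * b ^ 2 * y ^ 2 + 6 * x * b ^ 2 * (2 - x) - 4 * h ^ 2 * x ^ 2 * (1 - x) ∧
    3 * b ^ 2 * (x * (x - 2) ^ 2 + y ^ 2 * (x + 2)) =
      h ^ 2 * (2 * x ^ 2 * ((x - 1) * (x - 2) + y ^ 2)) := by
  have e1 : 2 * x * y * E = 3 * b ^ 2 * y ^ 2 + 6 * x * b ^ 2 * (2 - x) -
      4 * h ^ 2 * x ^ 2 * (1 - x) := by
    linear_combination (-(2 * x)) * r1 + 2 * x * s1 - (y * b) * s2
  refine ⟨e1, ?_⟩
  linear_combination (x * y) * r2 - ((2 - x) / 2) * e1 + ((2 + x) * b * y / 2) * s2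

/-- the algebra of the second end case: the polynomial relation between `x` and `y²` -/
theorem alg_P1 {h x y b p E : ℝ} (hx : x ≠ 0) (hy : y ≠ 0) (hb : b ≠ 0)
    (s2 : 3 * b * y + 2 * p * x = 0)
    (e1 : 2 * x * y * E = 3 * b ^ 2 * y ^ 2 + 6 * x * b ^ 2 * (2 - x) - 4 * h ^ 2 * x ^ 2 * (1 - x))
    (F1 : 3 * b ^ 2 * (x * (x - 2) ^ 2 + y ^ 2 * (x + 2)) =
      h ^ 2 * (2 * x ^ 2 * ((x - 1) * (x - 2) + y ^ 2)))
    (dd : 6 * b * E * (x * (x - 2) ^ 2 + y ^ 2 * (x + 2)) +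
      3 * b ^ 2 * (((x - 2) ^ 2 + 2 * x * (x - 2) + y ^ 2) * (b * y * (1 - 2 * x) + 2 * p * x) +
        2 * y * (x + 2) * (2 * p * y - b * (y ^ 2 + 2 + x - x ^ 2))) -
      2 * (h ^ 2 * b * y) * (2 * x ^ 2 * ((x - 1) * (x - 2) + y ^ 2)) -
      h ^ 2 * ((4 * x * ((x - 1) * (x - 2) + y ^ 2) + 2 * x ^ 2 * (2 * x - 3)) *
        (b * y * (1 - 2 * x) + 2 * p * x) +
        4 * x ^ 2 * y * (2 * p * y - b * (y ^ 2 + 2 + x - x ^ 2))) = 0) :
    9 * x ^ 5 - 33 * x ^ 4 + 18 * x ^ 3 * y ^ 2 + 18 * x ^ 3 - 19 * x ^ 2 * y ^ 2 + 36 * x ^ 2 +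
      9 * x * y ^ 4 + 48 * x * y ^ 2 - 24 * x + 14 * y ^ 4 - 20 * y ^ 2 = 0 := by
  set Q := x * (x - 2) ^ 2 + y ^ 2 * (x + 2) with hQ
  set M := 2 * x ^ 2 * ((x - 1) * (x - 2) + y ^ 2) with hM
  set xdz := x * (y ^ 2 + 2 + x - x ^ 2) + 3 * y ^ 2 with hxdz
  set Qx := (x - 2) ^ 2 + 2 * x * (x - 2) + y ^ 2 with hQx
  set Mx := 4 * x * ((x - 1) * (x - 2) + y ^ 2) + 2 * x ^ 2 * (2 * x - 3) with hMx
  set xS := 3 * Q * (6 * y ^ 2 + 12 * x * (2 - x)) -
    12 * y ^ 2 * (Qx * (1 + x) * x + (x + 2) * xdz) with hxS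
  set xW := 4 * y ^ 2 * M * x - 4 * y ^ 2 * (Mx * (1 + x) * x + 2 * x ^ 2 * xdz) +
    24 * Q * x ^ 2 * (1 - x) with hxW
  have key : b * (b ^ 2 * xS - h ^ 2 * xW) = 0 := by
    rw [hxS, hxW, hxdz]
    linear_combination (2 * x * y) * dd - (6 * b * Q) * e1 -
      (2 * x * y * (3 * b ^ 2 * Qx - h ^ 2 * Mx) +
        2 * y ^ 2 * (3 * b ^ 2 * (2 * y * (x + 2)) - h ^ 2 * (4 * x ^ 2 * y))) * s2
  have k2 : b ^ 2 * xS - h ^ 2 * xW = 0 := (mul_eq_zero.1 key).resolve_left hb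
  have k3 : b ^ 2 * (12 * x ^ 2 * y ^ 2) * (9 * x ^ 5 - 33 * x ^ 4 + 18 * x ^ 3 * y ^ 2 +
      18 * x ^ 3 - 19 * x ^ 2 * y ^ 2 + 36 * x ^ 2 +
      9 * x * y ^ 4 + 48 * x * y ^ 2 - 24 * x + 14 * y ^ 4 - 20 * y ^ 2) = 0 := by
    have e : (12 * x ^ 2 * y ^ 2) * (9 * x ^ 5 - 33 * x ^ 4 + 18 * x ^ 3 * y ^ 2 +
      18 * x ^ 3 - 19 * x ^ 2 * y ^ 2 + 36 * x ^ 2 +
      9 * x * y ^ 4 + 48 * x * y ^ 2 - 24 * x + 14 * y ^ 4 - 20 * y ^ 2) =
      M * xS - 3 * Q * xW := by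
      rw [hxS, hxW, hM, hQ, hMx, hQx, hxdz]; ring
    rw [mul_assoc, e]
    linear_combination M * k2 - xW * F1
  refine (mul_eq_zero.1 k3).resolve_left ?_
  positivity

/-- the elimination -/
theorem alg_res {x z : ℝ} (hx : x ≠ 0) (hx1 : 1 + x ≠ 0)
    (P1 : 9 * x ^ 5 - 33 * x ^ 4 + 18 * x ^ 3 * z + 18 * x ^ 3 - 19 * x ^ 2 * z + 36 * x ^ 2 +
      9 * x * z ^ 2 + 48 * x * z - 24 * x + 14 * z ^ 2 - 20 * z = 0)
    (P2 : 27 * x ^ 6 - 50 * x ^ 5 + 54 * x ^ 4 * z - 109 * x ^ 4 + 41 * x ^ 3 * z + 156 * x ^ 3 +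
      27 * x ^ 2 * z ^ 2 + 65 * x ^ 2 * z + 124 * x ^ 2 + 91 * x * z ^ 2 + 228 * x * z - 64 * x +
      84 * z ^ 2 - 60 * z = 0) :
    (x - 2) * (9 * x + 14) * (3 * x - 2) = 0 := by
  have hL : (8 * x ^ 3 + 73 * x ^ 2 + 44 * x + 84) * z +
      (8 * x ^ 5 + 4 * x ^ 4 - 84 * x ^ 3 + 32 * x ^ 2 + 112 * x) = 0 := by
    linear_combination ((9 * x + 14) / 10) * P2 - ((27 * x ^ 2 + 91 * x + 84) / 10) * P1
  have hR : 3 * (x * (1 + x) * (x - 2) ^ 3 * (9 * x + 14) * (3 * x - 2) *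
      (185 * x ^ 2 - 32 * x + 28)) = 0 := by
    linear_combination (8 * x ^ 3 + 73 * x ^ 2 + 44 * x + 84) ^ 2 * P1 -
      ((9 * x + 14) * ((8 * x ^ 3 + 73 * x ^ 2 + 44 * x + 84) * z -
        (8 * x ^ 5 + 4 * x ^ 4 - 84 * x ^ 3 + 32 * x ^ 2 + 112 * x)) +
        (18 * x ^ 3 - 19 * x ^ 2 + 48 * x - 20) * (8 * x ^ 3 + 73 * x ^ 2 + 44 * x + 84)) * hL
  have hq : 0 < 185 * x ^ 2 - 32 * x + 28 := by nlinarith [sq_nonneg (185 * x - 16)]
  rcases mul_eq_zero.1 ((mul_eq_zero.1 hR).resolve_left (by norm_num)) with h1 | h1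
  · rcases mul_eq_zero.1 h1 with h2 | h2
    · rcases mul_eq_zero.1 h2 with h3 | h3
      · rcases mul_eq_zero.1 h3 with h4 | h4
        · exact absurd h4 (mul_ne_zero hx hx1)
        · rw [pow_eq_zero_iff (by norm_num)] at h4
          rw [h4]; ring
      · rw [h3]; ring
    · rw [h2]; ring
  · exact absurd h1 hq.ne'

/-- second end case -/
theorem RS.end2 (R : RS c α β h x y b p E a) (hc : c ≠ 0)
    (hk : ∀ t ∈ Ioo α β, 2 * h t ^ 2 * (1 + x t) = -c) : ∀ t ∈ Ioo α β, False := by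
  have hx1 : ∀ t ∈ Ioo α β, 1 + x t ≠ 0 := by
    intro t ht h0
    have := hk t ht
    rw [h0, mul_zero] at this
    exact hc (by linarith)
  have s1 : ∀ t ∈ Ioo α β, c = -(2 * h t ^ 2 * (1 + x t)) := fun t ht => by
    linarith [hk t ht]
  have s2 : ∀ t ∈ Ioo α β, 3 * b t * y t + 2 * p t * x t = 0 := by
    intro t ht
    have d := dzero (fun t ht => (((R.dh t ht).pow 2).const_mul 2).mul
      ((hasDerivAt_const t (1 : ℝ)).add (R.dx t ht))) hk t ht
    simp only [Pi.pow_apply, Pi.add_apply] at d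
    push_cast at d
    have ha := (R.a0 t ht).ne'
    have hh := (R.h0 t ht).ne'
    have hk : 2 * a t * h t ^ 2 * (3 * b t * y t + 2 * p t * x t) = 0 := by
      linear_combination d
    refine (mul_eq_zero.1 hk).resolve_left ?_
    positivity
  have hx : ∀ t ∈ Ioo α β, x t ≠ 0 := by
    intro t ht h0
    have := s2 t ht
    rw [h0, mul_zero, add_zero] at this
    have hb := R.b0 t ht
    have hy := R.y0 t ht
    exact (mul_ne_zero (mul_ne_zero (by norm_num) hb) hy) this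
  have hrel := fun t ht => alg_rel (s1 t ht) (s2 t ht) (R.r1 t ht) (R.r2 t ht)
  have hP1 : ∀ t ∈ Ioo α β, 9 * x t ^ 5 - 33 * x t ^ 4 + 18 * x t ^ 3 * y t ^ 2 + 18 * x t ^ 3 -
      19 * x t ^ 2 * y t ^ 2 + 36 * x t ^ 2 +
      9 * x t * y t ^ 4 + 48 * x t * y t ^ 2 - 24 * x t + 14 * y t ^ 4 - 20 * y t ^ 2 = 0 := by
    intro t ht
    have hF : ∀ t ∈ Ioo α β, 3 * b t ^ 2 * (x t * (x t - 2) ^ 2 + y t ^ 2 * (x t + 2)) -
      h t ^ 2 * (2 * x t ^ 2 * ((x t - 1) * (x t - 2) + y t ^ 2)) = 0 := fun t ht => by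
        linarith [(hrel t ht).2]
    have d := dzero (fun t ht => ((((R.db t ht).pow 2).const_mul 3).mul
      (((R.dx t ht).mul (((R.dx t ht).sub_const 2).pow 2)).add
        (((R.dy t ht).pow 2).mul ((R.dx t ht).add_const 2)))).sub
      (((R.dh t ht).pow 2).mul ((((R.dx t ht).pow 2).const_mul 2).mul
        ((((R.dx t ht).sub_const 1).mul ((R.dx t ht).sub_const 2)).add
        ((R.dy t ht).pow 2))))) hF t ht
    simp only [Pi.mul_apply, Pi.pow_apply, Pi.add_apply] at d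
    push_cast at d
    refine alg_P1 (hx t ht) (R.y0 t ht) (R.b0 t ht) (s2 t ht) (hrel t ht).1 (hrel t ht).2 ?_
    have ha := (R.a0 t ht).ne'
    refine (mul_eq_zero.1 (?_ : a t * _ = 0)).resolve_left ha
    linear_combination d
  have hg : ∀ t ∈ Ioo α β, (x t - 2) * (9 * x t + 14) * (3 * x t - 2) = 0 := by
    intro t ht
    have d := dzero (fun t ht => ((((((((((((R.dx t ht).pow 5).const_mul 9).sub
      (((R.dx t ht).pow 4).const_mul 33)).add
      ((((R.dx t ht).pow 3).const_mul 18).mul ((R.dy t ht).pow 2))).add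
      (((R.dx t ht).pow 3).const_mul 18)).sub
      ((((R.dx t ht).pow 2).const_mul 19).mul ((R.dy t ht).pow 2))).add
      (((R.dx t ht).pow 2).const_mul 36)).add
      (((R.dx t ht).const_mul 9).mul ((R.dy t ht).pow 4))).add
      (((R.dx t ht).const_mul 48).mul ((R.dy t ht).pow 2))).sub
      ((R.dx t ht).const_mul 24)).add
      (((R.dy t ht).pow 4).const_mul 14)).sub
      (((R.dy t ht).pow 2).const_mul 20)) hP1 t ht
    simp only [Pi.pow_apply] at d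
    push_cast at d
    have ha := (R.a0 t ht).ne'
    have hb := R.b0 t ht
    have hy := R.y0 t ht
    refine alg_res (z := y t ^ 2) (hx t ht) (hx1 t ht) (by linear_combination hP1 t ht) ?_
    refine (mul_eq_zero.1 (?_ : a t * b t * y t * _ = 0)).resolve_left
      (mul_ne_zero (mul_ne_zero ha hb) hy)
    linear_combination (-(x t / 2)) * d + (a t / 2 * (x t * (45 * x t ^ 4 - 132 * x t ^ 3 +
      54 * x t ^ 2 * y t ^ 2 + 54 * x t ^ 2 - 38 * x t * y t ^ 2 + 72 * x t + 9 * y t ^ 4 +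
      48 * y t ^ 2 - 24) + 2 * y t ^ 2 * (18 * x t ^ 3 - 19 * x t ^ 2 + 18 * x t * y t ^ 2 +
      48 * x t + 28 * y t ^ 2 - 20))) * s2 t ht
  intro t ht
  have d := dzero (fun t ht => ((((R.dx t ht).sub_const 2).mul
    (((R.dx t ht).const_mul 9).add_const 14)).mul (((R.dx t ht).const_mul 3).sub_const 2)))
    hg t ht
  simp only [Pi.mul_apply] at d
  have ha := (R.a0 t ht).ne'
  have hb := R.b0 t ht
  have hy := R.y0 t ht
  have hk : a t * b t * y t * (1 + x t) * ((9 * x t + 14) * (3 * x t - 2) +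
      9 * (x t - 2) * (3 * x t - 2) + 3 * (x t - 2) * (9 * x t + 14)) = 0 := by
    linear_combination (-(1 / 2)) * d + (a t / 2 * ((9 * x t + 14) * (3 * x t - 2) +
      9 * (x t - 2) * (3 * x t - 2) + 3 * (x t - 2) * (9 * x t + 14))) * s2 t ht
  have h3 := (mul_eq_zero.1 hk).resolve_left
    (mul_ne_zero (mul_ne_zero (mul_ne_zero ha hb) hy) (hx1 t ht))
  have h4 := hg t ht
  rcases mul_eq_zero.1 h4 with h5 | h5
  · rcases mul_eq_zero.1 h5 with h6 | h6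
    · have : x t = 2 := by linarith
      rw [this] at h3; norm_num at h3
    · have : x t = -14 / 9 := by linarith
      rw [this] at h3; norm_num at h3
  · have : x t = 2 / 3 := by linarith
    rw [this] at h3; norm_num at h3

/-- NO ROTATIONAL CASE -/
theorem RS.false (R : RS c α β h x y b p E a) (hc : c ≠ 0) (hab : α < β) : False := by
  have ht : (α + β) / 2 ∈ Ioo α β := ⟨by linarith, by linarith⟩
  obtain ⟨B1, F1, F2, G1, G2, b1, b2, hR⟩ := R.rotL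
  rcases rot_main (neg_ne_zero.2 hc) hR with h1 | h1
  · refine R.end2 hc (fun t ht => ?_) _ ht
    have h2 := h1 t ht
    have ha := (R.a0 t ht).ne'
    have h3 : a t * (2 * h t ^ 2 * (1 + x t) - -c) = 0 := by linear_combination h2
    linarith [(mul_eq_zero.1 h3).resolve_left ha]
  · refine R.end1 (fun t ht => ?_) _ ht
    have h2 := h1 t ht
    have ha := (R.a0 t ht).ne'
    have hh := (R.h0 t ht).ne'
    have h3 := (mul_eq_zero.1 h2).resolve_left (by positivity)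
    linarith

end

end Pool.Agent.Helper29.N2
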