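import Pool.Agent.Helper29.N2.Rot

/-!
Rotational null 2-type surfaces with flat normal bundle: the scalar invariants along the profile
curve give a solution of the rotational system.
-/

set_option autoImplicit false
noncomputable section
namespace Pool.Agent.Helper29.N2

open Set Filter Topology Metric

/-- an antiderivative on an open interval -/
theorem exists_prim {α β : ℝ} {τ : ℝ → ℝ} (hτ : ContinuousOn τ (Ioo α β)) :
    ∃ θ : ℝ → ℝ, ∀ t ∈ Ioo α β, HasDerivAt θ (τ t) t := by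
  rcases (Ioo α β).eq_empty_or_nonempty with h | ⟨t0, ht0⟩
  · exact ⟨0, fun t ht => by rw [h] at ht; exact absurd ht (notMem_empty t)⟩
  refine ⟨fun t => ∫ s in t0..t, τ s, fun t ht => ?_⟩
  have h1 : uIcc t0 t ⊆ Ioo α β := ordConnected_Ioo.uIcc_subset ht0 ht
  refine intervalIntegral.integral_hasDerivAt_right ((hτ.mono h1).intervalIntegrable) ?_ ?_
  · exact hτ.stronglyMeasurableAtFilter isOpen_Ioo t ht
  · exact hτ.continuousAt (isOpen_Ioo.mem_nhds ht)

/-- the rotating frame -/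
theorem exists_g {α β : ℝ} {τ r r' : ℝ → ℝ} (hτ : ContinuousOn τ (Ioo α β))
    (hr : ∀ t ∈ Ioo α β, HasDerivAt r (r' t) t) (hpos : ∀ t ∈ Ioo α β, 0 < r t) :
    ∃ g1 g2 : ℝ → ℝ, ∀ t ∈ Ioo α β,
      HasDerivAt g1 (-(r' t / (2 * r t)) * g1 t - τ t * g2 t) t ∧
      HasDerivAt g2 (-(r' t / (2 * r t)) * g2 t + τ t * g1 t) t ∧
      (g1 t ^ 2 + g2 t ^ 2) * r t = 1 := by
  obtain ⟨θ, hθ⟩ := exists_prim hτ
  refine ⟨fun t => Real.cos (θ t) * (√(r t))⁻¹, fun t => Real.sin (θ t) * (√(r t))⁻¹,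
    fun t ht => ?_⟩
  have hp := hpos t ht
  have hs : 0 < √(r t) := Real.sqrt_pos.2 hp
  have hss : √(r t) * √(r t) = r t := Real.mul_self_sqrt hp.le
  have ds := ((hr t ht).sqrt hp.ne').inv hs.ne'
  have dc := (hθ t ht).cos
  have dn := (hθ t ht).sin
  have hk : √(r t) ^ 2 = r t := Real.sq_sqrt hp.le
  refine ⟨?_, ?_, ?_⟩
  · refine (dc.mul ds).congr_deriv ?_
    simp only [Pi.inv_apply]
    rw [hk]
    field_simp
    ring
  · refine (dn.mul ds).congr_deriv ?_
    simp only [Pi.inv_apply]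
    rw [hk]
    field_simp
    ring
  · have h1 := Real.sin_sq_add_cos_sq (θ t)
    simp only
    rw [mul_pow, mul_pow, inv_pow, hk]
    field_simp
    linear_combination h1

/-- the scalar system along the profile curve -/
structure RS (c α β : ℝ) (h x y b p E a : ℝ → ℝ) : Prop where
  dh : ∀ t ∈ Ioo α β, HasDerivAt h (a t * (b t * h t * y t)) t
  dx : ∀ t ∈ Ioo α β, HasDerivAt x (a t * (b t * y t * (1 - 2 * x t) + 2 * p t * x t)) t
  dy : ∀ t ∈ Ioo α β,
    HasDerivAt y (a t * (2 * p t * y t - b t * (y t ^ 2 + 2 + x t - x t ^ 2))) t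
  db : ∀ t ∈ Ioo α β, HasDerivAt b (a t * E t) t
  dp : ∀ t ∈ Ioo α β, HasDerivAt p (a t * (p t ^ 2 + h t ^ 2 * (1 - x t ^ 2 - y t ^ 2))) t
  da : ∀ t ∈ Ioo α β, HasDerivAt a (-(a t ^ 2 * p t)) t
  r1 : ∀ t ∈ Ioo α β, c = y t * (E t + b t * p t) + 3 * x t * b t ^ 2 -
    2 * h t ^ 2 * x t ^ 2 - 6 * b t ^ 2 - 2 * h t ^ 2
  r2 : ∀ t ∈ Ioo α β, (2 - x t) * E t = (2 + x t) * b t * p t +
    y t * (2 * h t ^ 2 * x t - 3 * b t ^ 2)
  nm : ∀ t ∈ Ioo α β, a t ^ 2 * (p t ^ 2 + h t ^ 2 * ((1 + x t) ^ 2 + y t ^ 2)) = 1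
  a0 : ∀ t ∈ Ioo α β, 0 < a t
  h0 : ∀ t ∈ Ioo α β, 0 < h t
  y0 : ∀ t ∈ Ioo α β, y t ≠ 0
  b0 : ∀ t ∈ Ioo α β, b t ≠ 0

section
variable {c α β : ℝ} {h x y b p E a : ℝ → ℝ}

/-- from the scalar system to the rotational system -/
theorem RS.rotL (R : RS c α β h x y b p E a) :
    ∃ B1 F1 F2 G1 G2 b1 b2 : ℝ → ℝ,
      RotL (-c) α β a (fun t => -(a t ^ 2 * p t)) (fun t => 2 * a t * h t ^ 2 * (1 + x t))
        B1 F1 F2 G1 G2 b1 b2 := by
  set r : ℝ → ℝ := fun t => (1 + x t) ^ 2 + y t ^ 2 with hr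
  have hrpos : ∀ t ∈ Ioo α β, 0 < r t := by
    intro t ht
    have := R.y0 t ht
    simp only [hr]; positivity
  set r' : ℝ → ℝ := fun t => a t * (-2 * b t * y t * r t + 4 * p t * r t - 4 * p t * (1 + x t))
    with hr'
  have dr : ∀ t ∈ Ioo α β, HasDerivAt r (r' t) t := by
    intro t ht
    have h1 := ((hasDerivAt_const t (1 : ℝ)).add (R.dx t ht)).pow 2
    have h2 := (R.dy t ht).pow 2
    refine HasDerivAt.congr_deriv (f := r) (h1.add h2) ?_
    simp only [hr', hr, Pi.add_apply]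
    push_cast
    ring
  have hτ : ContinuousOn (fun t => -(2 * y t / r t)) (Ioo α β) := by
    intro t ht
    have h1 := (((R.dy t ht).const_mul 2).div (dr t ht) (hrpos t ht).ne').neg
    exact h1.continuousAt.continuousWithinAt
  obtain ⟨g1, g2, hg⟩ := exists_g hτ dr hrpos
  -- the functions
  set K : ℝ → ℝ := fun t => 3 * b t * y t * p t + 2 * h t ^ 2 * y t ^ 2 +
    h t ^ 2 * (1 + x t) * (1 - x t ^ 2 - y t ^ 2) with hK
  set L : ℝ → ℝ := fun t => x t ^ 2 + y t ^ 2 - 2 - x t with hL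
  set Zr : ℝ → ℝ := fun t => a t * (1 + x t) * p t with hZr
  set Yr : ℝ → ℝ := fun t => a t ^ 2 * K t with hYr
  set Yi : ℝ → ℝ := fun t => a t * b t * L t with hYi
  set DK : ℝ → ℝ := fun t => 3 * E t * y t * p t +
    3 * b t * (2 * p t * y t - b t * (y t ^ 2 + 2 + x t - x t ^ 2)) * p t +
    3 * b t * y t * (p t ^ 2 + h t ^ 2 * (1 - x t ^ 2 - y t ^ 2)) +
    4 * h t ^ 2 * b t * y t ^ 3 +
    4 * h t ^ 2 * y t * (2 * p t * y t - b t * (y t ^ 2 + 2 + x t - x t ^ 2)) +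
    2 * h t ^ 2 * b t * y t * (1 + x t) * (1 - x t ^ 2 - y t ^ 2) +
    h t ^ 2 * (b t * y t * (1 - 2 * x t) + 2 * p t * x t) * (1 - x t ^ 2 - y t ^ 2) +
    h t ^ 2 * (1 + x t) * (-(2 * x t * (b t * y t * (1 - 2 * x t) + 2 * p t * x t)) -
      2 * y t * (2 * p t * y t - b t * (y t ^ 2 + 2 + x t - x t ^ 2))) with hDK
  set DL : ℝ → ℝ := fun t => (2 * x t - 1) * (b t * y t * (1 - 2 * x t) + 2 * p t * x t) +
    2 * y t * (2 * p t * y t - b t * (y t ^ 2 + 2 + x t - x t ^ 2)) with hDL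
  have dK : ∀ t ∈ Ioo α β, HasDerivAt K (a t * DK t) t := by
    intro t ht
    have e1 := ((((R.db t ht).const_mul 3).mul (R.dy t ht)).mul (R.dp t ht))
    have e2 := (((R.dh t ht).pow 2).const_mul 2).mul ((R.dy t ht).pow 2)
    have e3 := (((R.dh t ht).pow 2).mul ((hasDerivAt_const t (1 : ℝ)).add (R.dx t ht))).mul
      (((hasDerivAt_const t (1 : ℝ)).sub ((R.dx t ht).pow 2)).sub ((R.dy t ht).pow 2))
    refine HasDerivAt.congr_deriv (f := K) ((e1.add e2).add e3) ?_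
    simp only [hDK, Pi.add_apply, Pi.mul_apply, Pi.pow_apply, Pi.sub_apply]
    push_cast
    ring
  have dL : ∀ t ∈ Ioo α β, HasDerivAt L (a t * DL t) t := by
    intro t ht
    have e1 := ((((R.dx t ht).pow 2).add ((R.dy t ht).pow 2)).sub_const 2).sub (R.dx t ht)
    refine HasDerivAt.congr_deriv (f := L) e1 ?_
    simp only [hDL]
    push_cast
    ring
  have dZr : ∀ t ∈ Ioo α β, HasDerivAt Zr (a t ^ 2 * (p t * b t * y t * (1 - 2 * x t) +
      2 * p t ^ 2 * x t + h t ^ 2 * (1 + x t) * (1 - x t ^ 2 - y t ^ 2))) t := by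
    intro t ht
    have e1 := ((R.da t ht).mul ((hasDerivAt_const t (1 : ℝ)).add (R.dx t ht))).mul (R.dp t ht)
    refine HasDerivAt.congr_deriv (f := Zr) e1 ?_
    simp only [Pi.mul_apply, Pi.add_apply]
    ring
  have dYr : ∀ t ∈ Ioo α β, HasDerivAt Yr (a t ^ 3 * (DK t - 2 * p t * K t)) t := by
    intro t ht
    have e1 := ((R.da t ht).pow 2).mul (dK t ht)
    refine HasDerivAt.congr_deriv (f := Yr) e1 ?_
    simp only [Pi.pow_apply]
    push_cast
    ring
  have dYi : ∀ t ∈ Ioo α β, HasDerivAt Yi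
      (a t ^ 2 * (-(p t * b t * L t) + E t * L t + b t * DL t)) t := by
    intro t ht
    have e1 := ((R.da t ht).mul (R.db t ht)).mul (dL t ht)
    refine HasDerivAt.congr_deriv (f := Yi) e1 ?_
    simp only [Pi.mul_apply]
    ring
  -- derivative of the rotating frame
  have dg1 : ∀ t ∈ Ioo α β, HasDerivAt g1 ((a t * b t * y t - 2 * a t * p t +
      2 * Zr t * (r t)⁻¹) * g1 t + 2 * y t * (r t)⁻¹ * g2 t) t := by
    intro t ht
    refine (hg t ht).1.congr_deriv ?_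
    have := (hrpos t ht).ne'
    simp only [hr', hZr]
    field_simp
    ring
  have dg2 : ∀ t ∈ Ioo α β, HasDerivAt g2 ((a t * b t * y t - 2 * a t * p t +
      2 * Zr t * (r t)⁻¹) * g2 t - 2 * y t * (r t)⁻¹ * g1 t) t := by
    intro t ht
    refine (hg t ht).2.1.congr_deriv ?_
    have := (hrpos t ht).ne'
    simp only [hr', hZr]
    field_simp
    ring
  -- the four scalar identities
  have I1 : ∀ t ∈ Ioo α β, 2 * a t * (b t * y t - p t) * Zr t +
      2 * (Zr t ^ 2 + y t ^ 2) * (r t)⁻¹ + a t ^ 2 * (p t * b t * y t * (1 - 2 * x t) +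
      2 * p t ^ 2 * x t + h t ^ 2 * (1 + x t) * (1 - x t ^ 2 - y t ^ 2)) = Yr t := by
    intro t ht
    have e : Zr t ^ 2 + y t ^ 2 = a t ^ 2 * (p t ^ 2 + h t ^ 2 * y t ^ 2) * r t := by
      simp only [hZr, hr]
      linear_combination (-(y t ^ 2)) * R.nm t ht
    have := (hrpos t ht).ne'
    rw [e]
    simp only [hYr, hZr, hK]
    field_simp
    ring
  have I2 : ∀ t, 2 * a t * (b t * y t - p t) * y t +
      a t * (2 * p t * y t - b t * (y t ^ 2 + 2 + x t - x t ^ 2)) = Yi t := by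
    intro t
    simp only [hYi, hL]
    ring
  have I3 : ∀ t ∈ Ioo α β, 2 * a t * (b t * y t - p t) * Yr t +
      2 * (Zr t * Yr t + y t * Yi t) * (r t)⁻¹ + a t ^ 3 * (DK t - 2 * p t * K t) =
      c * a t ^ 2 * Zr t := by
    intro t ht
    have e : Zr t * Yr t + y t * Yi t = a t ^ 3 * (p t * (b t * y t * p t +
        h t ^ 2 * (1 - x t ^ 2)) + b t * y t * L t * h t ^ 2) * r t := by
      simp only [hZr, hr, hYr, hYi, hK, hL]
      linear_combination (-(a t * b t * y t * (x t ^ 2 + y t ^ 2 - 2 - x t))) * R.nm t ht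
    have hr0 := (hrpos t ht).ne'
    have e2 : 2 * (Zr t * Yr t + y t * Yi t) * (r t)⁻¹ = 2 * (a t ^ 3 * (p t * (b t * y t * p t +
        h t ^ 2 * (1 - x t ^ 2)) + b t * y t * L t * h t ^ 2)) := by
      rw [e]; field_simp
    rw [e2]
    have r1 := R.r1 t ht
    have r2 := R.r2 t ht
    simp only [hYr, hZr, hK, hDK, hL]
    linear_combination (-(a t ^ 3 * (1 + x t) * p t)) * r1 + a t ^ 3 * y t * p t * r2
  have I4 : ∀ t ∈ Ioo α β, 2 * a t * (b t * y t - p t) * Yi t +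
      2 * (Zr t * Yi t - y t * Yr t) * (r t)⁻¹ +
      a t ^ 2 * (-(p t * b t * L t) + E t * L t + b t * DL t) = c * a t ^ 2 * y t := by
    intro t ht
    have e : Zr t * Yi t - y t * Yr t = a t ^ 2 * (p t * b t * (x t - 2) -
        h t ^ 2 * y t * (1 - x t)) * r t := by
      simp only [hZr, hr, hYr, hYi, hK, hL]
      ring
    have hr0 := (hrpos t ht).ne'
    have e2 : 2 * (Zr t * Yi t - y t * Yr t) * (r t)⁻¹ = 2 * (a t ^ 2 * (p t * b t * (x t - 2) -
        h t ^ 2 * y t * (1 - x t))) := by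
      rw [e]; field_simp
    rw [e2]
    have r1 := R.r1 t ht
    have r2 := R.r2 t ht
    simp only [hYi, hDL, hL]
    linear_combination (-(a t ^ 2 * y t)) * r1 - a t ^ 2 * (1 + x t) * r2
  refine ⟨fun t => 2 * a t ^ 2 * h t ^ 2 * (p t * (x t - 1) + 3 * b t * y t),
    fun t => 2 * h t * (Zr t * g1 t - y t * g2 t), fun t => 2 * h t * (Zr t * g2 t + y t * g1 t),
    fun t => 2 * h t * (Yr t * g1 t - Yi t * g2 t), fun t => 2 * h t * (Yr t * g2 t + Yi t * g1 t),
    fun t => a t ^ 2 * h t * r t * g1 t, fun t => a t ^ 2 * h t * r t * g2 t, ?_⟩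
  refine ⟨R.da, fun t ht => ?_, fun t ht => ?_, fun t ht => ?_, fun t ht => ?_, fun t ht => ?_,
    fun t ht => ?_, fun t ht => ?_, fun t ht => ?_, fun t ht => ?_, R.a0, fun t ht => ?_⟩
  · refine (((R.da t ht).pow 2).mul (R.dp t ht)).neg.congr_deriv ?_
    simp only [Pi.pow_apply]
    push_cast
    linear_combination (a t) * R.nm t ht
  · have e1 := ((((R.da t ht).const_mul 2).mul ((R.dh t ht).pow 2)).mul
      ((hasDerivAt_const t (1 : ℝ)).add (R.dx t ht)))
    refine e1.congr_deriv ?_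
    simp only [Pi.pow_apply, Pi.mul_apply, Pi.add_apply]
    push_cast
    ring
  · have e1 := ((((R.da t ht).pow 2).const_mul 2).mul ((R.dh t ht).pow 2)).mul
      (((R.dp t ht).mul ((R.dx t ht).sub_const 1)).add (((R.db t ht).const_mul 3).mul
        (R.dy t ht)))
    refine e1.congr_deriv ?_
    simp only [Pi.pow_apply, Pi.mul_apply, Pi.add_apply]
    push_cast
    linear_combination (2 * a t ^ 3 * h t ^ 2 * y t) * R.r2 t ht -
      2 * a t ^ 3 * h t ^ 2 * (1 + x t) * R.r1 t ht +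
      2 * a t * h t ^ 2 * (1 + x t) * R.nm t ht
  · have e1 := ((R.dh t ht).const_mul 2).mul (((dZr t ht).mul (dg1 t ht)).sub
      ((R.dy t ht).mul (dg2 t ht)))
    refine e1.congr_deriv ?_
    simp only [Pi.mul_apply, Pi.sub_apply]
    linear_combination (2 * h t * g1 t) * I1 t ht - (2 * h t * g2 t) * I2 t
  · have e1 := ((R.dh t ht).const_mul 2).mul (((dZr t ht).mul (dg2 t ht)).add
      ((R.dy t ht).mul (dg1 t ht)))
    refine e1.congr_deriv ?_
    simp only [Pi.mul_apply, Pi.add_apply]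
    linear_combination (2 * h t * g2 t) * I1 t ht + (2 * h t * g1 t) * I2 t
  · have e1 := ((R.dh t ht).const_mul 2).mul (((dYr t ht).mul (dg1 t ht)).sub
      ((dYi t ht).mul (dg2 t ht)))
    refine e1.congr_deriv ?_
    simp only [Pi.mul_apply, Pi.sub_apply]
    linear_combination (2 * h t * g1 t) * I3 t ht - (2 * h t * g2 t) * I4 t ht
  · have e1 := ((R.dh t ht).const_mul 2).mul (((dYr t ht).mul (dg2 t ht)).add
      ((dYi t ht).mul (dg1 t ht)))
    refine e1.congr_deriv ?_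
    simp only [Pi.mul_apply, Pi.add_apply]
    linear_combination (2 * h t * g2 t) * I3 t ht + (2 * h t * g1 t) * I4 t ht
  · have e1 := ((((R.da t ht).pow 2).mul (R.dh t ht)).mul (dr t ht)).mul (dg1 t ht)
    refine e1.congr_deriv ?_
    simp only [Pi.mul_apply, Pi.pow_apply]
    have hr0 := (hrpos t ht).ne'
    have e : a t ^ 2 * h t * r t * ((a t * b t * y t - 2 * a t * p t + 2 * Zr t * (r t)⁻¹) * g1 t +
        2 * y t * (r t)⁻¹ * g2 t) = a t ^ 2 * h t * ((a t * b t * y t * r t -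
        2 * a t * p t * r t + 2 * Zr t) * g1 t + 2 * y t * g2 t) := by
      field_simp
    rw [e]
    simp only [hr', hZr]
    push_cast
    ring
  · have e1 := ((((R.da t ht).pow 2).mul (R.dh t ht)).mul (dr t ht)).mul (dg2 t ht)
    refine e1.congr_deriv ?_
    simp only [Pi.mul_apply, Pi.pow_apply]
    have hr0 := (hrpos t ht).ne'
    have e : a t ^ 2 * h t * r t * ((a t * b t * y t - 2 * a t * p t + 2 * Zr t * (r t)⁻¹) * g2 t -
        2 * y t * (r t)⁻¹ * g1 t) = a t ^ 2 * h t * ((a t * b t * y t * r t -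
        2 * a t * p t * r t + 2 * Zr t) * g2 t - 2 * y t * g1 t) := by
      field_simp
    rw [e]
    simp only [hr', hZr]
    push_cast
    ring
  · have h1 := (hg t ht).2.2
    have h2 := R.nm t ht
    simp only [hr] at h1 ⊢
    linear_combination (-(a t ^ 4 * h t ^ 2 * ((1 + x t) ^ 2 + y t ^ 2))) * h1 - a t ^ 2 * h2

end

end Pool.Agent.Helper29.N2
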